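import Pool.Agent.Lib.MP_799fdf_al.Inn.Base

/-! # The data of the engine -/

set_option autoImplicit false

open scoped commutatorElement

namespace MP799fdf

namespace Cop

open Inn

/-- the primes at most `n + 1` -/
abbrev QQ (n : ℕ) : Type := {p : ℕ // p.Prime ∧ p ≤ n + 1}

instance {n : ℕ} (q : QQ n) : Fact (Nat.Prime q.1) := ⟨q.2.1⟩

instance {n : ℕ} : Finite (QQ n) := by
  refine Set.Finite.subset (Set.finite_Iic (n + 1)) ?_
  intro p hp
  exact hp.2

/-- PROOF. `A ⧸ B` is cyclic of squarefree order `m = B.index`. For `q ∣ m` (a prime): the homomorphism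
`A → A ⧸ B ≅ Multiplicative (ZMod m) → Multiplicative (ZMod q)` (`zmodCyclicMulEquiv`, `ZMod.castHom`), for
`q ∤ m`: `0`. If all values are `0` then `x : ZMod m` is divisible by all primes dividing `m`, so by `m`
(squarefree). All primes dividing `m` are in `QQ n`. -/
theorem exists_char {A : Type} [Group A] [Finite A] (B : Subgroup A) (hB : B.Normal)
    (hg : ∃ g : A, B ⊔ Subgroup.zpowers g = ⊤) (hs : Squarefree B.index) (n : ℕ)
    (hn : B.index ≤ n + 1) :
    ∃ u : ∀ q : QQ n, A → ZMod q.1, (∀ q a b, u q (a * b) = u q a + u q b) ∧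
      (∀ a, (∀ q, u q a = 0) ↔ a ∈ B) ∧ ∀ q, (∃ a, u q a ≠ 0) → q.1 ∣ B.index := by
  classical
  have hm0 : B.index ≠ 0 := by
    intro h
    rw [h] at hs
    exact not_squarefree_zero hs
  have _hBn : B.Normal := hB
  have hcard : Nat.card (A ⧸ B) = B.index := rfl
  obtain ⟨g, hg⟩ := hg
  have hcyc : IsCyclic (A ⧸ B) := by
    refine ⟨⟨QuotientGroup.mk g, fun x => ?_⟩⟩
    obtain ⟨a, rfl⟩ := QuotientGroup.mk_surjective x
    have ha : a ∈ B ⊔ Subgroup.zpowers g := by rw [hg]; exact Subgroup.mem_top a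
    obtain ⟨b, hb, z, hz, rfl⟩ := Subgroup.mem_sup_of_normal_left.1 ha
    obtain ⟨k, rfl⟩ := Subgroup.mem_zpowers_iff.1 hz
    refine Subgroup.mem_zpowers_iff.2 ⟨k, ?_⟩
    have h1 : ((b * g ^ k : A) : A ⧸ B) = (b : A ⧸ B) * ((g ^ k : A) : A ⧸ B) := rfl
    rw [h1, (QuotientGroup.eq_one_iff b).2 hb, one_mul]
    rfl
  let e : A ⧸ B ≃* Multiplicative (ZMod (Nat.card (A ⧸ B))) := (zmodCyclicMulEquiv hcyc).symm
  let φ : A → ZMod (Nat.card (A ⧸ B)) := fun a => Multiplicative.toAdd (e (a : A ⧸ B))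
  have hφm : ∀ a b, φ (a * b) = φ a + φ b := by
    intro a b
    show Multiplicative.toAdd (e ((a * b : A) : A ⧸ B)) = _
    have h1 : ((a * b : A) : A ⧸ B) = (a : A ⧸ B) * (b : A ⧸ B) := rfl
    rw [h1, map_mul]
    rfl
  have hφ0 : ∀ a, φ a = 0 ↔ a ∈ B := by
    intro a
    constructor
    · intro h
      have h1 : e (a : A ⧸ B) = 1 := h
      rw [← (QuotientGroup.eq_one_iff a)]
      exact (MulEquiv.map_eq_one_iff e).1 h1
    · intro h
      have h1 : e (a : A ⧸ B) = 1 := by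
        rw [(QuotientGroup.eq_one_iff a).2 h, map_one]
      exact h1
  have hpos : 0 < Nat.card (A ⧸ B) := by rw [hcard]; exact Nat.pos_of_ne_zero hm0
  have : NeZero (Nat.card (A ⧸ B)) := ⟨hpos.ne'⟩
  refine ⟨fun q a => if h : q.1 ∣ Nat.card (A ⧸ B) then ZMod.castHom h (ZMod q.1) (φ a) else 0,
    ?_, ?_, ?_⟩
  · intro q a b
    by_cases h : q.1 ∣ Nat.card (A ⧸ B)
    · simp only [dif_pos h, hφm, map_add]
    · simp only [dif_neg h, add_zero]
  · intro a
    constructor
    · intro h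
      rw [← hφ0]
      have h1 : ∀ p ∈ (Nat.card (A ⧸ B)).primeFactors, p ∣ (φ a).val := by
        intro p hp
        have hpp := Nat.prime_of_mem_primeFactors hp
        have hpd := Nat.dvd_of_mem_primeFactors hp
        have hpn : p ≤ n + 1 := le_trans (Nat.le_of_dvd hpos hpd) (by rw [hcard]; exact hn)
        have h2 := h ⟨p, hpp, hpn⟩
        simp only [dif_pos hpd] at h2
        rw [ZMod.castHom_apply, ← ZMod.natCast_val, ZMod.natCast_eq_zero_iff] at h2
        exact h2
      have h3 : Nat.card (A ⧸ B) ∣ (φ a).val := by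
        have h4 := Nat.prod_primeFactors_of_squarefree (n := Nat.card (A ⧸ B)) (by rw [hcard]; exact hs)
        have h6 : ∏ p ∈ (Nat.card (A ⧸ B)).primeFactors, p ∣ (φ a).val :=
          Finset.prod_primes_dvd _ (fun p hp => (Nat.prime_of_mem_primeFactors hp).prime) h1
        exact (dvd_of_eq h4.symm).trans h6
      have h5 : (φ a).val = 0 := Nat.eq_zero_of_dvd_of_lt h3 (ZMod.val_lt _)
      exact (ZMod.val_eq_zero _).1 h5
    · intro h q
      by_cases hq : q.1 ∣ Nat.card (A ⧸ B)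
      · simp only [dif_pos hq, (hφ0 a).2 h, map_zero]
      · simp only [dif_neg hq]
  · rintro q ⟨a, ha⟩
    by_contra hq
    exact ha (dif_neg hq)

end Cop

end MP799fdf
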