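import Pool.Agent.Lib.MP_799fdf_al.Cop.CP

/-! # Local subgroups under the condition -/

set_option autoImplicit false

open scoped commutatorElement

namespace MP799fdf

namespace Cop

open Inn

variable {K : Type} [Group K]

/-- PROOF. `C = cen L N`: `⁅C, L⁆ ≤ N`, so `⁅⁅C, L⁆, L⁆ = ⊥`, and `⁅⁅L, L⁆, C⁆ = ⊥` by `three`
(`Main.lean`), `⁅L, L⁆ = L`. -/
theorem cen_iff {L N : Subgroup K} (h : Loc L N) (hN : ⁅N, L⁆ = ⊥) (x : K) :
    x ∈ cen L N h.nN ↔ ∀ y ∈ L, Commute x y := by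
  have hLn := h.nR
  have hNn := h.nN
  have hCn := cen_normal L N h.nR h.nN
  constructor
  · intro hx y hy
    have h1 : ⁅cen L N h.nN, L⁆ ≤ N := (le_cen_iff h.nN).1 le_rfl
    have h2 : ⁅⁅cen L N h.nN, L⁆, L⁆ = ⊥ :=
      le_bot_iff.1 ((Subgroup.commutator_mono h1 le_rfl).trans hN.le)
    have h3 := three (cen L N h.nN) L L hCn hLn hLn
    rw [h.perf, h2, sup_idem, le_bot_iff] at h3
    have h4 : ⁅x, y⁆ ∈ ⁅cen L N h.nN, L⁆ := Subgroup.commutator_mem_commutator hx hy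
    rw [h3, Subgroup.mem_bot] at h4
    exact commutatorElement_eq_one_iff_commute.1 h4
  · intro hx
    rw [mem_cen]
    intro y hy
    rw [commutatorElement_eq_one_iff_commute.2 (hx y hy)]
    exact N.one_mem

/-- PROOF. `L ⊓ L'` is normal. If it is `L` then `L ≤ L'`, so `L ≤ N'` (`L ≠ L'`), `⁅L, L'⁆ ≤ ⁅N', L'⁆ = ⊥`.
Otherwise it is `≤ N`, so `⁅⁅L', L⁆, L⁆ ≤ ⁅N, L⁆ = ⊥` and `⁅⁅L, L⁆, L'⁆ = ⊥` (`three`). -/
theorem loc_comm {L N L' N' : Subgroup K} (h : Loc L N) (h' : Loc L' N') (hN : ⁅N, L⁆ = ⊥)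
    (hN' : ⁅N', L'⁆ = ⊥) (hne : L ≠ L') : ∀ x ∈ L, ∀ y ∈ L', Commute x y := by
  have hLn := h.nR
  have hLn' := h'.nR
  have key : ⁅L, L'⁆ = ⊥ := by
    rcases h.max (L ⊓ L') (Subgroup.normal_inf_normal L L') inf_le_left with h1 | h1
    · have h2 : ⁅⁅L', L⁆, L⁆ = ⊥ := by
        refine le_bot_iff.1 (le_trans (Subgroup.commutator_mono ?_ le_rfl) hN.le)
        exact (le_inf (Subgroup.commutator_le_right L' L)
          (Subgroup.commutator_le_left L' L)).trans h1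
      have h3 := three L' L L hLn' hLn hLn
      rw [h.perf, h2, sup_idem, le_bot_iff] at h3
      rw [Subgroup.commutator_comm, h3]
    · have h2 : L ≤ L' := inf_eq_left.1 h1
      rcases h'.max L h.nR h2 with h3 | h3
      · exact le_bot_iff.1 ((Subgroup.commutator_mono h3 le_rfl).trans hN'.le)
      · exact absurd h3 hne
  intro x hx y hy
  have h4 : ⁅x, y⁆ ∈ ⁅L, L'⁆ := Subgroup.commutator_mem_commutator hx hy
  rw [key, Subgroup.mem_bot] at h4
  exact commutatorElement_eq_one_iff_commute.1 h4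

/-- PROOF. Let `S` be the subgroup. If `K ⧸ S` is not soluble, it has a local subgroup (`exists_loc`), which
lifts to a local subgroup `L` of `K` (`loc_lift`), not in `S`; a contradiction. `dser_map`, `dser_solv`. -/
theorem solv_quot [Finite K] (S : Subgroup K) (hS : S.Normal)
    (h : ∀ L N : Subgroup K, Loc L N → L ≤ S) : ∃ n, dser (⊤ : Subgroup K) n ≤ S := by
  have hsol : Group.IsSolvable (⊤ : Subgroup (K ⧸ S)) := by
    by_contra hc
    obtain ⟨R, N, hRN, -⟩ := exists_loc (⊤ : Subgroup (K ⧸ S)) inferInstance hc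
    obtain ⟨R', N', h1, h2, -⟩ := loc_lift (QuotientGroup.mk' S) (QuotientGroup.mk'_surjective S) hRN
    refine hRN.ne_bot ?_
    rw [← h2, Subgroup.map_eq_bot_iff, QuotientGroup.ker_mk']
    exact h R' N' h1
  obtain ⟨n, hn⟩ := dser_solv (⊤ : Subgroup (K ⧸ S)) hsol
  refine ⟨n, ?_⟩
  have h1 : (dser (⊤ : Subgroup K) n).map (QuotientGroup.mk' S) = ⊥ := by
    rw [dser_map, Subgroup.map_top_of_surjective _ (QuotientGroup.mk'_surjective S), hn]
  rw [Subgroup.map_eq_bot_iff, QuotientGroup.ker_mk'] at h1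
  exact h1

end Cop

end MP799fdf
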