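import Pool.Agent.Lib.MP_799fdf_al.Inn.LocB
import Pool.Agent.Lib.MP_799fdf_al.Inn.KStrA

/-! # Types of local subgroups -/

set_option autoImplicit false

open scoped commutatorElement

namespace MP799fdf

namespace Cop

open Inn

/-- the local pairs of `G` -/
abbrev TT (G : Type) [Group G] : Type := {τ : Subgroup G × Subgroup G // Loc τ.1 τ.2}

instance {G : Type} [Group G] (τ : TT G) : (cen τ.1.1 τ.1.2 τ.2.nN).Normal :=
  cen_normal _ _ τ.2.nR τ.2.nN

/-- `G` modulo the centraliser of the section -/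
abbrev TA (G : Type) [Group G] (τ : TT G) : Type := G ⧸ cen τ.1.1 τ.1.2 τ.2.nN

/-- every local pair of `K` has a type in `G` -/
def TY (G K : Type) [Group G] [Group K] : Prop :=
  ∀ L N : Subgroup K, ∀ h : Loc L N, ∃ (τ : TT G) (a : K →* TA G τ), Function.Surjective a ∧
    (∀ x, a x = 1 ↔ x ∈ cen L N h.nN) ∧ L.map a = τ.1.1.map (QuotientGroup.mk' _)

/-- PROOF. `a = mk'`. -/
theorem ty_base (G : Type) [Group G] : TY G G := by
  intro L N h
  have hn := cen_normal L N h.nR h.nN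
  exact ⟨⟨(L, N), h⟩, QuotientGroup.mk' (cen L N h.nN), QuotientGroup.mk'_surjective _,
    fun x => QuotientGroup.eq_one_iff x, rfl⟩

/-- PROOF. `loc_lift` gives `R'`, `N' = R' ⊓ N.comap f`, and `a'` for it. `f.ker ≤ cen R' N'` (for `x ∈ f.ker`,
`y ∈ R'`: `⁅x, y⁆ ∈ R'` and `f ⁅x, y⁆ = 1 ∈ N`), so `a'` factors: `a` with `a (f x) = a' x`
(`MonoidHom.liftOfSurjective`, or `QuotientGroup.lift` and `quotientKerEquivOfSurjective`).
`x ∈ cen R' N' ↔ f x ∈ cen R N`: `⁅x, y⁆ ∈ N'` iff `⁅f x, f y⁆ ∈ N`, and `R = R'.map f`. -/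
theorem ty_surj {G A B : Type} [Group G] [Group A] [Finite A] [Group B] [Finite B] (f : A →* B)
    (hf : Function.Surjective f) (h : TY G A) : TY G B := by
  intro L N hLN
  obtain ⟨R', N', h', hmap, hN'⟩ := loc_lift f hf hLN
  obtain ⟨τ, a', ha', hker, hL⟩ := h R' N' h'
  have hcomm : ∀ x : A, ∀ y ∈ R', ⁅x, y⁆ ∈ R' := by
    intro x y hy
    rw [commutatorElement_def]
    exact R'.mul_mem (h'.nR.conj_mem y hy x) (R'.inv_mem hy)
  have hiff : ∀ x, x ∈ cen R' N' h'.nN ↔ f x ∈ cen L N hLN.nN := by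
    intro x
    rw [mem_cen, mem_cen]
    constructor
    · intro hx y hy
      rw [← hmap] at hy
      obtain ⟨y', hy', rfl⟩ := Subgroup.mem_map.1 hy
      have h1 := hx y' hy'
      rw [hN'] at h1
      rw [← map_commutatorElement]
      exact h1.2
    · intro hx y hy
      rw [hN']
      refine Subgroup.mem_inf.2 ⟨hcomm x y hy, ?_⟩
      rw [Subgroup.mem_comap, map_commutatorElement]
      refine hx _ ?_
      rw [← hmap]
      exact Subgroup.mem_map_of_mem f hy
  have hle : f.ker ≤ a'.ker := by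
    intro x hx
    rw [MonoidHom.mem_ker] at hx ⊢
    rw [hker, hiff, hx]
    exact Subgroup.one_mem _
  have ha : ∀ x, f.liftOfSurjective hf ⟨a', hle⟩ (f x) = a' x := fun x =>
    MonoidHom.liftOfRightInverse_comp_apply f _ (Function.rightInverse_surjInv hf) ⟨a', hle⟩ x
  refine ⟨τ, f.liftOfSurjective hf ⟨a', hle⟩, ?_, ?_, ?_⟩
  · intro y
    obtain ⟨x, hx⟩ := ha' y
    exact ⟨f x, by rw [ha, hx]⟩
  · intro x
    obtain ⟨x, rfl⟩ := hf x
    rw [ha, hker, hiff]
  · rw [← hL, ← hmap, Subgroup.map_map]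
    congr 1
    exact MonoidHom.ext ha

/-- PROOF. `a = a'.comp f` with `a'` for the local pair `(L.map f, N.map f)` (`loc_map`).
`f x ∈ cen (L.map f) (N.map f) ↔ x ∈ cen L N`: if `f ⁅x, y⁆ = f n`, `n ∈ N`, then
`⁅x, y⁆ * n⁻¹ ∈ L ⊓ f.ker ≤ N` (`loc_inf_ker`). -/
theorem ty_case {G K A : Type} [Group G] [Group K] [Finite K] [Group A] [Finite A] (f : K →* A)
    (hf : Function.Surjective f) (hA : TY G A) {L N : Subgroup K} (h : Loc L N)
    (hL : ¬ L ≤ f.ker) : ∃ (τ : TT G) (a : K →* TA G τ), Function.Surjective a ∧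
    (∀ x, a x = 1 ↔ x ∈ cen L N h.nN) ∧ L.map a = τ.1.1.map (QuotientGroup.mk' _) := by
  obtain ⟨τ, a', ha', hker, hmap⟩ := hA _ _ (loc_map f hf h hL)
  refine ⟨τ, a'.comp f, ha'.comp hf, fun x => ?_, by rw [← Subgroup.map_map, hmap]⟩
  rw [MonoidHom.comp_apply, hker, mem_cen, mem_cen]
  constructor
  · intro hx y hy
    have h1 := hx (f y) (Subgroup.mem_map_of_mem f hy)
    rw [← map_commutatorElement] at h1
    obtain ⟨n, hn, hfn⟩ := Subgroup.mem_map.1 h1
    have h2 : ⁅x, y⁆ * n⁻¹ ∈ L ⊓ f.ker := by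
      refine Subgroup.mem_inf.2 ⟨?_, ?_⟩
      · rw [commutatorElement_def]
        exact L.mul_mem (L.mul_mem (h.nR.conj_mem y hy x) (L.inv_mem hy)) (L.inv_mem (h.lt.le hn))
      · rw [MonoidHom.mem_ker, map_mul, map_inv, hfn, mul_inv_cancel]
    have h3 := N.mul_mem (loc_inf_ker h hL h2) hn
    rwa [inv_mul_cancel_right] at h3
  · intro hx y hy
    obtain ⟨y', hy', rfl⟩ := Subgroup.mem_map.1 hy
    rw [← map_commutatorElement]
    exact Subgroup.mem_map_of_mem f (hx y' hy')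

/-- PROOF. `form_induction`, `ty_base`, `ty_surj`, `ty_case` (`L` is not in both kernels, `Loc.ne_bot`). -/
theorem ty_form (G : Type) [Group G] [Finite G] (K : Type) [Group K] [Finite K]
    (hK : (form G).mem K) : TY G K := by
  refine form_induction (G := G) (fun H _ _ => TY G H) ?_ ?_ (ty_base G) K hK
  · intro A B _ _ _ _ f hf h
    exact ty_surj f hf h
  · intro K A B _ _ _ _ _ _ f g hf hg hA hB h L N hLN
    by_cases hLf : L ≤ f.ker
    · refine ty_case g hg hB hLN fun hLg => hLN.ne_bot ?_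
      rw [eq_bot_iff]
      intro x hx
      exact Subgroup.mem_bot.2 (h x (hLf hx) (hLg hx))
    · exact ty_case f hf hA hLN hLf

end Cop

end MP799fdf
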