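import Pool.Agent.Lib.MP_799fdf_al.Cop.Defs
import Pool.Agent.Lib.MP_799fdf_al.Cop.BuildA
import Pool.Agent.Lib.MP_799fdf_al.Cop.TY
import Pool.Agent.Lib.MP_799fdf_al.Cop.CPL

/-! # The data of the engine -/

set_option autoImplicit false

open scoped commutatorElement

namespace MP799fdf

namespace Cop

open Inn

/-- PROOF. `T = TT G`, `A = TA G`, `Q = QQ |G|`, `ι = {L // ∃ N, Loc L N}`, `t`, `al` from `TY`; `u τ` from
`exists_char` for `B = τ.1.1.map mk'` if its hypotheses hold, and `0` otherwise. For `τ = t i`, `a = al i`: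
`(L ⊔ cen L N).index = (L.map a).index` (`Subgroup.index_comap_of_surjective`, `comap_map_eq`: `a.ker = cen L N`),
and `L.map a ⊔ zpowers (a g) = ⊤`. `ker`: `cen_iff`; `comm`: `loc_comm`; `cop`: `z ∈ L ⊓ cen L N ≤ N`
(`loc_inf_cen`), `orderOf z ∣ |N|`, coprime to the index; `solv`: `solv_quot`. -/
theorem exists_eng (G : Type) [Group G] [Finite G] (K : Type) [Group K] [Finite K] (h1 : CPs K)
    (h2 : TY G K) :
    Nonempty (Eng K {L : Subgroup K // ∃ N, Loc L N} (TT G) (QQ (Nat.card G)) (TA G)
      fun q => q.1) := by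
  classical
  let B : ∀ τ : TT G, Subgroup (TA G τ) := fun τ => τ.1.1.map (QuotientGroup.mk' _)
  let P : TT G → Prop := fun τ => (B τ).Normal ∧ (∃ g : TA G τ, B τ ⊔ Subgroup.zpowers g = ⊤) ∧
    Squarefree (B τ).index ∧ (B τ).index ≤ Nat.card G + 1
  have hu : ∀ τ : TT G, ∃ u : ∀ q : QQ (Nat.card G), TA G τ → ZMod q.1,
      (∀ q a b, u q (a * b) = u q a + u q b) ∧
      (P τ → (∀ a, (∀ q, u q a = 0) ↔ a ∈ B τ) ∧ ∀ q, (∃ a, u q a ≠ 0) → q.1 ∣ (B τ).index) := by
    intro τ
    by_cases hP : P τ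
    · obtain ⟨u, hu1, hu2, hu3⟩ :=
        exists_char (B τ) hP.1 hP.2.1 hP.2.2.1 (Nat.card G) hP.2.2.2
      exact ⟨u, hu1, fun _ => ⟨hu2, hu3⟩⟩
    · exact ⟨fun q a => 0, fun q a b => (add_zero 0).symm, fun h => absurd h hP⟩
  choose u hu1 hu2 using hu
  choose N hN using fun i : {L : Subgroup K // ∃ N, Loc L N} => i.2
  choose t a ha hk hm using fun i : {L : Subgroup K // ∃ N, Loc L N} => h2 i.1 (N i) (hN i)
  have hker : ∀ i, (a i).ker = cen i.1 (N i) (hN i).nN := by
    intro i
    ext x
    rw [MonoidHom.mem_ker]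
    exact hk i x
  have hB : ∀ i, B (t i) = i.1.map (a i) := fun i => (hm i).symm
  have hind : ∀ i, (B (t i)).index = (i.1 ⊔ cen i.1 (N i) (hN i).nN).index := by
    intro i
    rw [hB, ← Subgroup.index_comap_of_surjective _ (ha i), Subgroup.comap_map_eq, hker]
  have hP : ∀ i, P (t i) := by
    intro i
    obtain ⟨hg1, ⟨g, hg2⟩, hg3, hg4⟩ := h1 i.1 (N i) (hN i)
    refine ⟨?_, ⟨a i g, ?_⟩, ?_, ?_⟩
    · rw [hB]
      exact (hN i).nR.map (a i) (ha i)
    · have h3 := congrArg (Subgroup.map (a i)) hg2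
      rw [Subgroup.map_sup, Subgroup.map_sup, Subgroup.map_top_of_surjective _ (ha i),
        MonoidHom.map_zpowers, ← hker i, (Subgroup.map_eq_bot_iff _).2 le_rfl, sup_bot_eq] at h3
      rw [hB]
      exact h3
    · rw [hind]
      exact hg3
    · have h4 : (B (t i)).index ∣ Nat.card G :=
        (Subgroup.index_dvd_card _).trans
          (Subgroup.card_quotient_dvd_card (cen (t i).1.1 (t i).1.2 (t i).2.nN))
      exact (Nat.le_of_dvd Nat.card_pos h4).trans (Nat.le_succ _)
  obtain ⟨n, hn⟩ := solv_quot (⨆ i : {L : Subgroup K // ∃ N, Loc L N}, i.1)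
    (by
      have : ∀ i : {L : Subgroup K // ∃ N, Loc L N}, (i.1).Normal := fun i => (hN i).nR
      infer_instance)
    (fun L M h => le_iSup (fun i : {L : Subgroup K // ∃ N, Loc L N} => i.1) ⟨L, M, h⟩)
  exact ⟨{ R := fun i => i.1
           t := t
           al := a
           u := u
           pr_inj := Subtype.val_injective
           u_mul := hu1
           nR := fun i => (hN i).nR
           comm := fun i j hij x hx y hy =>
             loc_comm (hN i) (hN j) (h1 i.1 (N i) (hN i)).1 (h1 j.1 (N j) (hN j)).1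
               (fun h => hij (Subtype.ext h)) x hx y hy
           surj := ha
           mapR := fun i x => by
             rw [(hu2 (t i) (hP i)).1 x, hB]
             exact Subgroup.mem_map
           ker := fun i x => by
             rw [hk i x]
             exact cen_iff (hN i) (h1 i.1 (N i) (hN i)).1 x
           cop := fun i q ⟨k, hq⟩ z hz hz1 => by
             have h3 : q.1 ∣ (B (t i)).index := (hu2 (t i) (hP i)).2 q ⟨_, hq⟩
             rw [hind] at h3
             have h4 : z ∈ N i := loc_inf_cen (hN i) ⟨hz, (hk i z).1 hz1⟩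
             have h5 : orderOf z ∣ Nat.card (N i) := by
               have := orderOf_dvd_natCard (⟨z, h4⟩ : N i)
               rwa [Subgroup.orderOf_mk] at this
             exact ((h1 i.1 (N i) (hN i)).2.2.2.symm.coprime_dvd_left h5).coprime_dvd_right h3
           n := n
           solv := hn }⟩

end Cop

end MP799fdf
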