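import Pool.Agent.Lib.MP_799fdf_al.Cop.CP

/-! # The condition holds in form G -/

set_option autoImplicit false

open scoped commutatorElement

namespace MP799fdf

namespace Cop

open Inn

private theorem cpb_mapN {A B : Type} [Group A] [Group B] (f : A →* B)
    {L N : Subgroup B} {L' N' : Subgroup A} (h : Loc L N) (h1 : L'.map f = L)
    (h2 : N' = L' ⊓ N.comap f) : N'.map f = N := by
  apply le_antisymm
  · rw [Subgroup.map_le_iff_le_comap, h2]
    exact inf_le_right
  · intro n hn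
    have h3 : n ∈ L'.map f := by
      rw [h1]
      exact h.lt.le hn
    obtain ⟨y, hy, rfl⟩ := Subgroup.mem_map.1 h3
    refine Subgroup.mem_map_of_mem f ?_
    rw [h2]
    exact Subgroup.mem_inf.2 ⟨hy, Subgroup.mem_comap.2 hn⟩

private theorem cpb_phi {K B : Type} [Group K] [Finite K] [Group B] [Finite B] (φ : K →* B)
    (hφ : Function.Surjective φ) (hB : CP B) {L N : Subgroup K} (h : Loc L N) :
    (∀ z ∈ N, φ z = 1) ∨ ((∀ x ∈ ⁅N, L⁆, φ x = 1) ∧
      (∀ z ∈ N, ∀ q : ℕ, q.Prime → q ∣ (L ⊔ cen L N h.nN).index → z ^ q = 1 → φ z = 1) ∧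
      (∃ g : K, L ⊔ cen L N h.nN ⊔ Subgroup.zpowers g = ⊤) ∧
      Squarefree (L ⊔ cen L N h.nN).index) := by
  by_cases hR : L ≤ φ.ker
  · left
    intro z hz
    exact MonoidHom.mem_ker.1 (hR (h.lt.le hz))
  have h1 := loc_map φ hφ h hR
  have h2 : N = L ⊓ (N.map φ).comap φ := by
    apply le_antisymm
    · intro n hn
      exact Subgroup.mem_inf.2 ⟨h.lt.le hn, Subgroup.mem_comap.2 (Subgroup.mem_map_of_mem φ hn)⟩
    · intro x hx
      obtain ⟨hx1, hx2⟩ := Subgroup.mem_inf.1 hx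
      obtain ⟨n, hn, hnx⟩ := Subgroup.mem_map.1 (Subgroup.mem_comap.1 hx2)
      have h3 : x * n⁻¹ ∈ L ⊓ φ.ker := by
        refine Subgroup.mem_inf.2 ⟨L.mul_mem hx1 (L.inv_mem (h.lt.le hn)), ?_⟩
        rw [MonoidHom.mem_ker, map_mul, map_inv, hnx, mul_inv_cancel]
      have h4 := N.mul_mem (loc_inf_ker h hR h3) hn
      rwa [inv_mul_cancel_right] at h4
  rcases hB _ _ h1 with e | hg
  · left
    intro z hz
    have h3 : φ z ∈ N.map φ := Subgroup.mem_map_of_mem φ hz
    rw [e] at h3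
    exact Subgroup.mem_bot.1 h3
  · right
    obtain ⟨g1, g2⟩ := gd_up φ hφ h1 h rfl h2 hg
    obtain ⟨c1, -, -, c4⟩ := hg
    refine ⟨fun x hx => ?_, fun z hz q hq hqi hzq => ?_, g1, g2⟩
    · have h3 : φ x ∈ (⁅N, L⁆).map φ := Subgroup.mem_map_of_mem φ hx
      rw [Subgroup.map_commutator, c1] at h3
      exact Subgroup.mem_bot.1 h3
    · rw [index_lift φ hφ h1 h rfl h2] at c4
      have h3 : φ z ∈ N.map φ := Subgroup.mem_map_of_mem φ hz
      have h4 : (φ z) ^ q = 1 := by rw [← map_pow, hzq, map_one]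
      have h5 : orderOf (φ z) ∣ Nat.card (N.map φ) := by
        have h6 := orderOf_dvd_natCard (⟨φ z, h3⟩ : N.map φ)
        rwa [Subgroup.orderOf_mk] at h6
      have h6 : orderOf (φ z) ∣ q := orderOf_dvd_of_pow_eq_one h4
      have h7 : orderOf (φ z) ∣ 1 := by
        have h8 := Nat.dvd_gcd (h6.trans hqi) h5
        rwa [Nat.Coprime.gcd_eq_one c4] at h8
      exact orderOf_eq_one_iff.1 (Nat.dvd_one.1 h7)

/-- PROOF. `loc_lift`, `gd_lift`; if `N' = ⊥` then `N = N'.map f = ⊥`. -/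
theorem cp_surj {A B : Type} [Group A] [Finite A] [Group B] [Finite B] (f : A →* B)
    (hf : Function.Surjective f) (h : CP A) : CP B := by
  intro L N hL
  obtain ⟨L', N', h', h1, h2⟩ := loc_lift f hf hL
  rcases h L' N' h' with e | hg
  · left
    rw [← cpb_mapN f hL h1 h2, e, Subgroup.map_bot]
  · exact Or.inr (gd_lift f hf hL h' h1 h2 hg)

/-- PROOF. Let `(L, N)` be local in `K`. If `L ≤ g.ker` then `¬ L ≤ f.ker`, `f` is injective on `L`, and the
property of `(L.map f, N.map f)` (`loc_map`) gives that of `(L, N)`: `gd_up`, `index_lift` with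
`N = L ⊓ (N.map f).comap f` (`loc_inf_ker`), `Nat.card (N.map f) = Nat.card N`. Similarly for `L ≤ f.ker`. If
neither holds then both images are local. If `N.map f = ⊥` and `N.map g = ⊥` then `N = ⊥`. Otherwise one of the
images is good, say that for `g`; `⁅N, L⁆` is mapped to `⊥` by `g`, and by `f` (if `N.map f = ⊥` or if the image
under `f` is good), so it is `⊥`. The outer part: `gd_up`. If a prime `q` divides the index of `L ⊔ cen L N` (which is
that of both images, `index_lift`) and `|N|`, let `z ∈ N` have order `q` (`exists_prime_orderOf_dvd_card'`): `g z` has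
order `1` or `q`, in `N.map g`, so `g z = 1`, and `f z = 1` too (`N.map f = ⊥` or as for `g`), `z = 1`, a
contradiction (`Nat.Coprime` via `Nat.coprime_of_dvd`). -/
theorem cp_sub {K A B : Type} [Group K] [Finite K] [Group A] [Finite A] [Group B] [Finite B]
    (f : K →* A) (g : K →* B) (hf : Function.Surjective f) (hg : Function.Surjective g)
    (hA : CP A) (hB : CP B) (h : ∀ x, f x = 1 → g x = 1 → x = 1) : CP K := by
  intro L N hL
  have hcN : ⁅N, L⁆ ≤ N := by
    have := hL.nN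
    exact Subgroup.commutator_le_left N L
  have fin : (∀ x ∈ ⁅N, L⁆, f x = 1) → (∀ x ∈ ⁅N, L⁆, g x = 1) →
      (∀ z ∈ N, ∀ q : ℕ, q.Prime → q ∣ (L ⊔ cen L N hL.nN).index → z ^ q = 1 → f z = 1) →
      (∀ z ∈ N, ∀ q : ℕ, q.Prime → q ∣ (L ⊔ cen L N hL.nN).index → z ^ q = 1 → g z = 1) →
      (∃ g : K, L ⊔ cen L N hL.nN ⊔ Subgroup.zpowers g = ⊤) →
      Squarefree (L ⊔ cen L N hL.nN).index → Gd hL := by
    intro a1 a2 b1 b2 c d
    refine ⟨?_, c, d, ?_⟩
    · rw [eq_bot_iff]
      intro x hx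
      exact Subgroup.mem_bot.2 (h x (a1 x hx) (a2 x hx))
    · refine Nat.coprime_of_dvd fun q hq hq1 hq2 => ?_
      have : Fact q.Prime := ⟨hq⟩
      obtain ⟨z, hz⟩ := exists_prime_orderOf_dvd_card' (G := N) q hq2
      have hzq : (z : K) ^ q = 1 := by
        have h1 : z ^ q = 1 := by
          rw [← hz]
          exact pow_orderOf_eq_one z
        have h2 := congrArg (Subtype.val) h1
        simpa using h2
      have h3 := h (z : K) (b1 z z.2 q hq hq1 hzq) (b2 z z.2 q hq hq1 hzq)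
      have h4 : z = 1 := Subtype.ext h3
      rw [h4, orderOf_one] at hz
      exact hq.one_lt.ne hz
  rcases cpb_phi f hf hA hL with a | ⟨a1, a2, a3, a4⟩
  · rcases cpb_phi g hg hB hL with b | ⟨b1, b2, b3, b4⟩
    · left
      rw [eq_bot_iff]
      intro x hx
      exact Subgroup.mem_bot.2 (h x (a x hx) (b x hx))
    · exact Or.inr (fin (fun x hx => a x (hcN hx)) b1 (fun z hz _ _ _ _ => a z hz) b2 b3 b4)
  · rcases cpb_phi g hg hB hL with b | ⟨b1, b2, b3, b4⟩
    · exact Or.inr (fin a1 (fun x hx => b x (hcN hx)) a2 (fun z hz _ _ _ _ => b z hz) a3 a4)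
    · exact Or.inr (fin a1 b1 a2 b2 a3 a4)

theorem cp_form {G : Type} [Group G] [Finite G] (hG : CP G) (K : Type) [Group K] [Finite K]
    (hK : (form G).mem K) : CP K :=
  form_induction (G := G) (fun H _ _ => CP H)
    (fun _ _ _ _ _ _ f hf h => cp_surj f hf h)
    (fun _ _ _ _ _ _ _ _ _ f g hf hg hA hB h => cp_sub f g hf hg hA hB h) hG K hK

end Cop

end MP799fdf
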