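import Pool.Agent.Lib.MP_799fdf_al.Cop.CPL

/-! # The product of the local subgroups with N = 1 -/

set_option autoImplicit false

open scoped commutatorElement

namespace MP799fdf

namespace Cop

open Inn

variable {K : Type} [Group K]

/-- the product of the local subgroups with `N = ⊥` -/
def SB (K : Type) [Group K] : Subgroup K :=
  ⨆ L : {L : Subgroup K // Loc L ⊥}, L.1

/-- PROOF. A supremum of normal subgroups. -/
theorem sb_normal : (SB K).Normal := by
  refine ⟨fun x hx g => ?_⟩
  unfold SB at hx ⊢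
  refine Subgroup.iSup_induction (fun L : {L : Subgroup K // Loc L ⊥} => L.1)
    (C := fun x => g * x * g⁻¹ ∈ ⨆ L : {L : Subgroup K // Loc L ⊥}, L.1) hx ?_ ?_ ?_
  · intro L y hy
    exact (le_iSup (fun L : {L : Subgroup K // Loc L ⊥} => L.1) L) (L.2.nR.conj_mem y hy g)
  · rw [mul_one, mul_inv_cancel]
    exact Subgroup.one_mem _
  · intro y z hy hz
    have h := Subgroup.mul_mem _ hy hz
    have h2 : g * y * g⁻¹ * (g * z * g⁻¹) = g * (y * z) * g⁻¹ := by group
    rwa [h2] at h

private theorem cpm_cen_bot {L : Subgroup K} {hN : (⊥ : Subgroup K).Normal} {x : K} :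
    x ∈ cen L ⊥ hN ↔ ∀ y ∈ L, Commute x y := by
  rw [mem_cen]
  refine forall₂_congr fun y _ => ?_
  rw [Subgroup.mem_bot, commutatorElement_eq_one_iff_commute]

private theorem cpm_fin [Finite K] (s : Finset {L : Subgroup K // Loc L ⊥}) :
    ∀ x : K, x ∈ s.sup (fun L => L.1) → (∀ L ∈ s, ∀ y ∈ L.1, Commute x y) → x = 1 := by
  classical
  induction s using Finset.induction_on with
  | empty =>
    intro x hx _
    rw [Finset.sup_empty, Subgroup.mem_bot] at hx
    exact hx
  | insert L s hL ih =>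
    intro x hx h
    rw [Finset.sup_insert] at hx
    have hn : L.1.Normal := L.2.nR
    obtain ⟨l, hl, a, ha, rfl⟩ := Subgroup.mem_sup_of_normal_left.1 hx
    have hcomm : ∀ y ∈ L.1, ∀ b ∈ s.sup (fun L => L.1), Commute b y := by
      intro y hy
      have h1 : s.sup (fun L : {L : Subgroup K // Loc L ⊥} => L.1) ≤
          Subgroup.centralizer {y} := by
        refine Finset.sup_le fun L' hL' b hb => ?_
        rw [Subgroup.mem_centralizer_singleton_iff]
        have hne : L'.1 ≠ L.1 := by
          intro h2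
          apply hL
          rw [← Subtype.ext h2]
          exact hL'
        have h3 : ∀ M : Subgroup K, ⁅(⊥ : Subgroup K), M⁆ = ⊥ := fun M =>
          Subgroup.commutator_bot_left M
        exact (loc_comm L'.2 L.2 (h3 _) (h3 _) hne b hb y hy).eq
      intro b hb
      exact Subgroup.mem_centralizer_singleton_iff.1 (h1 hb)
    have hl1 : l = 1 := by
      have h1 : l ∈ L.1 ⊓ cen L.1 ⊥ L.2.nN := by
        refine Subgroup.mem_inf.2 ⟨hl, cpm_cen_bot.2 fun y hy => ?_⟩
        have h2 : Commute (l * a) y := h L (Finset.mem_insert_self L s) y hy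
        have h3 : Commute a y := hcomm y hy a ha
        have h4 : Commute (l * a * a⁻¹) y := h2.mul_left h3.inv_left
        rwa [mul_inv_cancel_right] at h4
      exact Subgroup.mem_bot.1 (loc_inf_cen L.2 h1)
    rw [hl1, one_mul] at h ⊢
    exact ih a ha fun L' hL' => h L' (Finset.mem_insert_of_mem hL')

/-- PROOF. Let `x ∈ SB` commute with all `L`, `Loc L ⊥`. By induction on a finite set `s` of such `L` show: if
`x ∈ ⨆ L ∈ s, L` commutes with all of them then `x = 1`: `x = a * l`, `l ∈ L` (`Subgroup.mem_sup_of_normal_right`),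
`a` commutes with `L` (`loc_comm` with `N = ⊥`), so `l ∈ L ⊓ cen L ⊥ ≤ ⊥` (`loc_inf_cen`). -/
theorem sb_inf [Finite K] (x : K) (hx : x ∈ SB K)
    (h : ∀ (L : Subgroup K) (hL : Loc L ⊥), x ∈ cen L ⊥ hL.nN) : x = 1 := by
  classical
  haveI : Fintype {L : Subgroup K // Loc L ⊥} := Fintype.ofFinite _
  refine cpm_fin Finset.univ x ?_ fun L _ => cpm_cen_bot.1 (h L.1 L.2)
  rw [Finset.sup_univ_eq_iSup]
  exact hx

/-- PROOF. A local pair `(L, N)` of `K ⧸ SB K` lifts to `(L', N')` (`loc_lift`); `N' ≠ ⊥` since otherwise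
`L' ≤ SB K` is mapped to `⊥`; `gd_lift`. -/
theorem sb_quot [Finite K] (hK : CP K) [(SB K).Normal] : CPs (K ⧸ SB K) := by
  intro L N h
  have hf := QuotientGroup.mk'_surjective (SB K)
  obtain ⟨L', N', h', h1, h2⟩ := loc_lift (QuotientGroup.mk' (SB K)) hf h
  rcases hK L' N' h' with h3 | h3
  · exfalso
    subst h3
    have h4 : L' ≤ SB K :=
      le_iSup (fun L : {L : Subgroup K // Loc L ⊥} => L.1) ⟨L', h'⟩
    apply h.ne_bot
    rw [← h1, eq_bot_iff, Subgroup.map_le_iff_le_comap]
    intro x hx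
    rw [Subgroup.mem_comap, Subgroup.mem_bot, QuotientGroup.mk'_apply,
      QuotientGroup.eq_one_iff]
    exact h4 hx
  · exact gd_lift (QuotientGroup.mk' (SB K)) hf h h' h1 h2 h3

end Cop

end MP799fdf
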