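import Pool.Agent.Lib.MP_799fdf_al.Cop.Defs

/-! # The centres -/

set_option autoImplicit false

open scoped commutatorElement

namespace MP799fdf

namespace Cop

namespace Eng

variable {K : Type} [Group K] {ι T Q : Type} {A : T → Type} [∀ τ, Group (A τ)] {pr : Q → ℕ}
  (D : Eng K ι T Q A pr) [Fintype ι] [DecidableEq ι]

/-- PROOF. `x' = x * z` with `al i z = 1`, `z` commutes with `R i`. -/
theorem comm_eq (i : ι) {x y x' y' : K} (hx : x ∈ D.R i) (hy : y ∈ D.R i) (hx' : x' ∈ D.R i)
    (hy' : y' ∈ D.R i) (h1 : D.al i x = D.al i x') (h2 : D.al i y = D.al i y') :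
    ⁅x, y⁆ = ⁅x', y'⁆ := by
  have hz : D.al i (x⁻¹ * x') = 1 := by rw [map_mul, map_inv, h1, inv_mul_cancel]
  have hw : D.al i (y⁻¹ * y') = 1 := by rw [map_mul, map_inv, h2, inv_mul_cancel]
  have hzm := (D.ker i _).1 hz
  have hwm := (D.ker i _).1 hw
  have hwR : y⁻¹ * y' ∈ D.R i := (D.R i).mul_mem ((D.R i).inv_mem hy) hy'
  obtain ⟨z, rfl⟩ : ∃ z, x' = x * z := ⟨x⁻¹ * x', by group⟩
  obtain ⟨w, rfl⟩ : ∃ w, y' = y * w := ⟨y⁻¹ * y', by group⟩
  simp only [inv_mul_cancel_left] at hzm hwm hwR
  have c1 : z * y = y * z := hzm y hy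
  have c2 : z * w = w * z := hzm w hwR
  have c3 : w * x = x * w := hwm x hx
  have e1 : x * z * (y * w) = x * y * w * z := by
    calc x * z * (y * w) = x * (z * y) * w := by group
      _ = x * y * (z * w) := by rw [c1]; group
      _ = x * y * w * z := by rw [c2]; group
  have e2 : y * w * (x * z) = y * x * w * z := by
    calc y * w * (x * z) = y * (w * x) * z := by group
      _ = y * x * w * z := by rw [c3]; group
  have e3 : ⁅x * z, y * w⁆ = x * z * (y * w) * (y * w * (x * z))⁻¹ := by
    rw [commutatorElement_def]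
    group
  rw [e3, e1, e2, commutatorElement_def]
  group

/-- the union of the centres -/
def CC : Set K := {x | ∃ i, x ∈ D.R i ∧ D.al i x = 1}

/-- PROOF. Same `i`: `D.ker`; different: `D.comm`. -/
theorem CC_comm : ∀ x ∈ D.CC, ∀ y ∈ D.CC, x * y = y * x := by
  rintro x ⟨i, hx, hx1⟩ y ⟨j, hy, hy1⟩
  by_cases hij : i = j
  · subst hij
    exact (D.ker i x).1 hx1 y hy
  · exact D.comm i j hij x hx y hy

/-- the commutative group generated by the centres -/
def ZZ : Type := Subgroup.closure D.CC

instance : Group D.ZZ := inferInstanceAs (Group (Subgroup.closure D.CC))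

instance : CommGroup D.ZZ :=
  { (inferInstance : Group D.ZZ) with
    mul_comm := fun a b => (Subgroup.isMulCommutative_closure D.CC_comm).is_comm.comm a b }

/-- the inclusion -/
def zi : D.ZZ →* K := Subgroup.subtype (Subgroup.closure D.CC)

theorem zi_inj : Function.Injective D.zi := Subtype.val_injective

/-- PROOF. Induction/`Finset.noncommProd_eq_prod`, `Finset.map_noncommProd`: the homomorphism `zi` maps the
product in the commutative group to the noncommutative product. -/
theorem P_prod (r : ∀ i, D.R i) (z : ι → D.ZZ) (h : ∀ i, (r i : K) = D.zi (z i)) :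
    D.P r = D.zi (∏ i, z i) := by
  have e1 : D.P r = Finset.univ.noncommProd (fun i => ((r i : D.R i) : K))
      (fun i _ j _ hij => D.comm i j hij _ (r i).2 _ (r j).2) := rfl
  have hc : ((Finset.univ : Finset ι) : Set ι).Pairwise
      (Function.onFun (Commute (S := D.ZZ)) z) := fun i _ j _ _ => mul_comm (z i) (z j)
  have e2 : D.zi (Finset.univ.noncommProd z hc) =
      Finset.univ.noncommProd (fun i => D.zi (z i)) (fun i hi j hj hij => (hc hi hj hij).map D.zi) :=
    Finset.map_noncommProd Finset.univ z hc D.zi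
  have e3 : Finset.univ.noncommProd z hc = ∏ i, z i := Finset.noncommProd_eq_prod Finset.univ z
  rw [e1, ← e3]
  exact (Finset.noncommProd_congr rfl (fun i _ => h i) _).trans e2.symm

end Eng

end Cop

end MP799fdf
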