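import Pool.Agent.Lib.MP_799fdf_al.Cop.MzB
import Pool.Agent.Lib.MP_799fdf_al.Cop.MzC

/-! # The quotients by M Z -/

set_option autoImplicit false

open scoped commutatorElement

namespace MP799fdf

namespace Cop

namespace Eng

variable {K : Type} [Group K] [Finite K] {ι T Q : Type} {A : T → Type} [∀ τ, Group (A τ)]
  {pr : Q → ℕ} [∀ q, Fact (pr q).Prime] (D : Eng K ι T Q A pr) [Fintype ι] [DecidableEq ι]

/-- PROOF. `dser (DZ Z) n` has values in `dser ⊤ n ≤ ⨆ R i` (evaluation maps, `dser_map`, `dser_mono`),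
and is contained in `DZ Z` (`dser_anti`); `Subgroup.commutator_le` and `comm_mem`. -/
theorem dser_DZ (Z : Finset (X (K := K) (ι := ι) (pr := pr) (T := T))) : dser (D.DZ Z) (D.n + 1) ≤ D.M Z := by
  have hv : ∀ f ∈ dser (D.DZ Z) D.n, ∀ e, f e ∈ ⨆ i, D.R i := by
    intro f hf e
    have h1 : (dser (D.DZ Z) D.n).map (Pi.evalMonoidHom (fun _ => K) e) ≤ ⨆ i, D.R i := by
      rw [Inn.dser_map]
      exact (Inn.dser_mono le_top D.n).trans D.solv
    exact h1 ⟨f, hf, rfl⟩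
  have hd : dser (D.DZ Z) D.n ≤ D.DZ Z := Inn.dser_anti (D.DZ Z) (Nat.zero_le _)
  have e : dser (D.DZ Z) (D.n + 1) = ⁅dser (D.DZ Z) D.n, dser (D.DZ Z) D.n⁆ := rfl
  rw [e, Subgroup.commutator_le]
  intro f hf g hg
  exact D.comm_mem Z (hd hf) (hd hg) (hv f hf) (hv g hg)

theorem mzd_M_le_DZ (Z : Finset (X (K := K) (ι := ι) (pr := pr) (T := T))) : D.M Z ≤ D.DZ Z := by
  intro f hf
  refine ⟨D.M_le Z hf, fun e i hi => ?_⟩
  obtain ⟨r, _, hZ, hfe⟩ := hf
  rw [hfe e, al_P]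
  have h1 := hZ i (D.trD e i, lab e.2.2 i) hi
  simp only [h1]
  exact (D.al i).map_one

/-- PROOF. `S` = the image of `(DZ Z).subgroupOf Pi` in the quotient: normal, index at most that of
`(DZ Z).subgroupOf Pi` (`DZ_index`); soluble: `solv_of_dser`, `dser_map` and `dser_DZ` (`dser` of the
`subgroupOf` is mapped by the inclusion to `dser (DZ Z ⊓ Pi)`, `DZ Z ≤ Pi`). -/
theorem rb_quot [∀ τ, Finite (A τ)] {a : ℕ} (ha : ∀ τ, Nat.card (A τ) ≤ a) (Z : Finset (X (K := K) (ι := ι) (pr := pr) (T := T)))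
    [((D.M Z).subgroupOf D.Pi).Normal] :
    Inn.RB (a ^ Z.card) (D.Pi ⧸ (D.M Z).subgroupOf D.Pi) := by
  have hN := D.DZ_normal Z
  have hsurj := QuotientGroup.mk'_surjective ((D.M Z).subgroupOf D.Pi)
  have hker : (QuotientGroup.mk' ((D.M Z).subgroupOf D.Pi)).ker ≤ (D.DZ Z).subgroupOf D.Pi := by
    rw [QuotientGroup.ker_mk']
    exact Subgroup.subgroupOf_mono D.Pi (D.mzd_M_le_DZ Z)
  refine ⟨((D.DZ Z).subgroupOf D.Pi).map (QuotientGroup.mk' ((D.M Z).subgroupOf D.Pi)),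
    hN.map _ hsurj, ?_, ?_⟩
  · apply Inn.solv_of_dser _ (D.n + 1)
    rw [← Inn.dser_map, Subgroup.map_eq_bot_iff, QuotientGroup.ker_mk']
    intro x hx
    rw [Subgroup.mem_subgroupOf]
    have h1 : (dser ((D.DZ Z).subgroupOf D.Pi) (D.n + 1)).map D.Pi.subtype ≤ D.M Z := by
      rw [Inn.dser_map, Subgroup.subgroupOf_map_subtype]
      exact (Inn.dser_mono inf_le_left _).trans (D.dser_DZ Z)
    exact h1 ⟨x, hx, rfl⟩
  · rw [Subgroup.index_map_eq _ hsurj hker]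
    exact D.DZ_index ha Z

end Eng

end Cop

end MP799fdf
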