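import Pool.Agent.Lib.MP_799fdf_al.Cop.CombA

/-! # Representatives of lines -/

set_option autoImplicit false

namespace MP799fdf

namespace Cop

open Finset

variable {p : ℕ} [Fact p.Prime] {V : Type} [AddCommGroup V] [Module (ZMod p) V]

/-- PROOF. `V` is finite, the dual is a finite-dimensional vector space over `ZMod p`
(`Module.card_eq_pow_finrank`), so its cardinality is a power of `p`. -/
theorem coprime_dual [Finite V] [Fintype (Module.Dual (ZMod p) V)] (M : ℕ) (hM : M.Coprime p) :
    M.Coprime (Fintype.card (Module.Dual (ZMod p) V)) := by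
  rw [Module.card_eq_pow_finrank (K := ZMod p) (V := Module.Dual (ZMod p) V), ZMod.card]
  exact hM.pow_right _

/-- A point on every line. PROOF. For `v ≠ 0` let `Ln v = {w | ∃ s : ZMod p, s ≠ 0 ∧ w = s • v}` and
`rep v = (nonempty).some` of this set (`Ln v = Ln w` if `w ∈ Ln v`, so then `rep v = rep w`). `S` = the image
of `rep` on the nonzero vectors. Or use the projectivization / a quotient by the units and `Quotient.out`. -/
theorem exists_reps [Finite V] : ∃ S : Finset V, (∀ l ∈ S, l ≠ 0) ∧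
    ∀ ρ : V, ρ ≠ 0 → ∃ l ∈ S, (∃ s : ZMod p, ρ = s • l) ∧
      ∀ l' ∈ S, (∃ s : ZMod p, ρ = s • l') → l' = l := by
  refine ⟨(Set.toFinite (Set.range (Projectivization.rep : Projectivization (ZMod p) V → V))).toFinset,
    ?_, ?_⟩
  · intro l hl
    rw [Set.Finite.mem_toFinset] at hl
    obtain ⟨P, rfl⟩ := hl
    exact P.rep_nonzero
  · intro ρ hρ
    obtain ⟨a, ha⟩ := Projectivization.exists_smul_eq_mk_rep (ZMod p) ρ hρ
    refine ⟨(Projectivization.mk (ZMod p) ρ hρ).rep, ?_, ⟨((a⁻¹ : (ZMod p)ˣ) : ZMod p), ?_⟩, ?_⟩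
    · rw [Set.Finite.mem_toFinset]
      exact ⟨_, rfl⟩
    · rw [← ha]
      exact (inv_smul_smul a ρ).symm
    · intro l' hl' ⟨s, hs⟩
      rw [Set.Finite.mem_toFinset] at hl'
      obtain ⟨P, rfl⟩ := hl'
      congr 1
      rw [← P.mk_rep]
      rw [Projectivization.mk_eq_mk_iff']
      have hs0 : s ≠ 0 := by
        rintro rfl
        rw [zero_smul] at hs
        exact hρ hs
      refine ⟨s⁻¹, ?_⟩
      rw [hs, smul_smul, inv_mul_cancel₀ hs0, one_smul]

end Cop

end MP799fdf
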