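import Pool.Agent.Lib.MP_799fdf_al.Cop.CombB
import Pool.Agent.Lib.MP_799fdf_al.Cop.CombA2

/-! # One prime -/

set_option autoImplicit false

namespace MP799fdf

namespace Cop

open Finset

variable {p : ℕ} [Fact p.Prime] {V : Type} [AddCommGroup V] [Module (ZMod p) V]


private theorem combB2_sub1_zero (ρ : V) : sub1 ((0 : V), (0 : Module.Dual (ZMod p) V)) ρ = (ρ, 0) := by
  simp [sub1]

private theorem combB2_some [DecidableEq V] [Fintype V] [Fintype (Module.Dual (ZMod p) V)]
    (b : ℤ) (l ρ : V) (hl : l ≠ 0) (w : V × ZMod p)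
    (hw : ∀ s : ZMod p, w ≠ (s • l, 0) ∧ w ≠ (0, s)) :
    ∑ e : V × Module.Dual (ZMod p) V, (if sub1 e ρ = w then nu b l e else 0) = 0 := by
  by_cases h : ∃ s : ZMod p, ρ = s • l
  · obtain ⟨s, hs⟩ := h
    rw [push_on b l ρ hl s hs w, if_neg (by rw [hs]; exact (hw s).1), if_neg (hw s).2]
    ring
  · exact push_off b l ρ hl (fun s hs => h ⟨s, hs⟩) w

private theorem combB2_none [DecidableEq V] [Fintype V] [Fintype (Module.Dual (ZMod p) V)]
    [DecidableEq (Module.Dual (ZMod p) V)] (b : ℤ) (S : Finset V) (ρ : V) (w : V × ZMod p) :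
    ∑ e : V × Module.Dual (ZMod p) V, (if sub1 e ρ = w then
      ((if e = (0, 0) then 1 else 0) - ∑ l ∈ S, nu b l e) else 0) =
      (if w = (ρ, 0) then 1 else 0) -
        ∑ l ∈ S, ∑ e : V × Module.Dual (ZMod p) V, (if sub1 e ρ = w then nu b l e else 0) := by
  rw [Finset.sum_comm]
  have h1 : ∀ e : V × Module.Dual (ZMod p) V, (if sub1 e ρ = w then
      ((if e = (0, 0) then (1 : ℤ) else 0) - ∑ l ∈ S, nu b l e) else 0) =
      (if e = (0, 0) then (if sub1 e ρ = w then (1 : ℤ) else 0) else 0) -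
        ∑ l ∈ S, (if sub1 e ρ = w then nu b l e else 0) := by
    intro e
    by_cases h : sub1 e ρ = w
    · simp [h]
    · simp [h]
  rw [Finset.sum_congr rfl fun e _ => h1 e, Finset.sum_sub_distrib, Finset.sum_ite_eq',
    if_pos (Finset.mem_univ _), combB2_sub1_zero]
  congr 1
  by_cases h : w = (ρ, 0)
  · rw [if_pos h, if_pos h.symm]
  · rw [if_neg h, if_neg (fun h' => h h'.symm)]

/-- ONE PRIME. PROOF. `S` from `exists_reps`, an integer `b` with `b * card(dual) ≡ 1 mod M`
(`coprime_dual`), `χ = Option S`, `μ (some l) = nu b l`, `μ none e = (if e = 0 then 1 else 0) - ∑ l ∈ S, nu b l e`,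
`Z (some l) = {(s • l, 0)} ∪ {(0, s)}`, `Z none = {(0, s)}` (`s : ZMod p`).
`some l`: `push_on` (both points are in `Z (some l)`), `push_off`.
`none`, `ρ ≠ 0`: one `l ∈ S` with `ρ = s • l`; the sum is `[w = (ρ, 0)] - b c ([w = (ρ, 0)] - [w = (0, s)])`, for
`w ≠ (0, s)` it is `(1 - b c) [w = (ρ, 0)]`. `none`, `ρ = 0`: all the `push_on` terms (`s = 0`) vanish, and
`w ≠ (0, 0)`. (`sub1 (0, 0) ρ = (ρ, 0)`; exchange the sums over `e` and `l`.) -/
theorem one_prime [Fintype V] [Fintype (Module.Dual (ZMod p) V)] [DecidableEq V]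
    [DecidableEq (Module.Dual (ZMod p) V)] (M : ℕ) (hM : M.Coprime p) :
    ∃ (χ : Type) (_ : Fintype χ) (μ : χ → V × Module.Dual (ZMod p) V → ℤ)
      (Z : χ → Finset (V × ZMod p)),
      (∀ x, (Z x).card ≤ 2 * p) ∧
      (∀ e, ∑ x, μ x e = if e = (0, 0) then 1 else 0) ∧
      (∀ x ρ w, w ∉ Z x → (M : ℤ) ∣ ∑ e, (if sub1 e ρ = w then μ x e else 0)) ∧
      (∀ x w, w ∉ Z x → ∑ e, (if sub1 e (0 : V) = w then μ x e else 0) = 0) := by
  classical
  obtain ⟨S, hS0, hS⟩ := exists_reps (p := p) (V := V)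
  have hcop : IsCoprime (M : ℤ) (Fintype.card (Module.Dual (ZMod p) V) : ℤ) :=
    Nat.isCoprime_iff_coprime.2 (coprime_dual M hM)
  obtain ⟨a, b, hab⟩ := hcop
  have hnone0 : ∀ w : V × ZMod p, (∀ s : ZMod p, w ≠ (0, s)) →
      ∑ e : V × Module.Dual (ZMod p) V, (if sub1 e (0 : V) = w then
        ((if e = (0, 0) then (1 : ℤ) else 0) - ∑ l ∈ S, nu b l e) else 0) = 0 := by
    intro w hw
    rw [combB2_none, if_neg (hw 0), Finset.sum_eq_zero, sub_zero]
    intro l hl
    rw [push_on b l 0 (hS0 l hl) 0 (zero_smul _ _).symm w]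
    ring
  refine ⟨Option S, inferInstance,
    fun x e => Option.elim x ((if e = (0, 0) then 1 else 0) - ∑ l ∈ S, nu b l e)
      fun l => nu b (l : V) e,
    fun x => Option.elim x (univ.image fun s : ZMod p => ((0 : V), s))
      fun l => (univ.image fun s : ZMod p => (s • (l : V), (0 : ZMod p))) ∪
        (univ.image fun s : ZMod p => ((0 : V), s)), ?_, ?_, ?_, ?_⟩
  · have hc : ∀ f : ZMod p → V × ZMod p, (univ.image f).card ≤ p := by
      intro f
      refine Finset.card_image_le.trans ?_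
      rw [Finset.card_univ, ZMod.card]
    intro x
    cases x with
    | none =>
      have h1 := hc fun s : ZMod p => ((0 : V), s)
      show (univ.image fun s : ZMod p => ((0 : V), s)).card ≤ 2 * p
      omega
    | some l =>
      have h1 := hc fun s : ZMod p => ((0 : V), s)
      have h2 := hc fun s : ZMod p => (s • (l : V), (0 : ZMod p))
      have h3 := Finset.card_union_le (univ.image fun s : ZMod p => (s • (l : V), (0 : ZMod p)))
        (univ.image fun s : ZMod p => ((0 : V), s))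
      show ((univ.image fun s : ZMod p => (s • (l : V), (0 : ZMod p))) ∪
        (univ.image fun s : ZMod p => ((0 : V), s))).card ≤ 2 * p
      omega
  · intro e
    rw [Fintype.sum_option]
    show ((if e = (0, 0) then 1 else 0) - ∑ l ∈ S, nu b l e) + ∑ l : S, nu b (l : V) e = _
    rw [Finset.sum_coe_sort S (fun l => nu b l e)]
    ring
  · intro x ρ w hw
    cases x with
    | none =>
      have hw' : ∀ s : ZMod p, w ≠ (0, s) := fun s hs =>
        hw (Finset.mem_image.2 ⟨s, Finset.mem_univ _, hs.symm⟩)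
      show (M : ℤ) ∣ ∑ e : V × Module.Dual (ZMod p) V, (if sub1 e ρ = w then
        ((if e = (0, 0) then (1 : ℤ) else 0) - ∑ l ∈ S, nu b l e) else 0)
      by_cases hρ : ρ = 0
      · rw [hρ, hnone0 w hw']
        exact dvd_zero _
      · obtain ⟨l, hl, ⟨s, hs⟩, huniq⟩ := hS ρ hρ
        rw [combB2_none, Finset.sum_eq_single_of_mem l hl]
        · rw [push_on b l ρ (hS0 l hl) s hs w, if_neg (hw' s)]
          by_cases h : w = (ρ, 0)
          · rw [if_pos h]
            exact ⟨a, by linarith⟩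
          · rw [if_neg h]
            simp
        · intro l' hl' hne
          exact push_off b l' ρ (hS0 l' hl') (fun s' hs' => hne (huniq l' hl' ⟨s', hs'⟩)) w
    | some l =>
      have hw' : ∀ s : ZMod p, w ≠ (s • (l : V), 0) ∧ w ≠ (0, s) := fun s =>
        ⟨fun hs => hw (Finset.mem_union_left _ (Finset.mem_image.2 ⟨s, Finset.mem_univ _, hs.symm⟩)),
          fun hs => hw (Finset.mem_union_right _
            (Finset.mem_image.2 ⟨s, Finset.mem_univ _, hs.symm⟩))⟩
      show (M : ℤ) ∣ ∑ e : V × Module.Dual (ZMod p) V, (if sub1 e ρ = w then nu b (l : V) e else 0)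
      rw [combB2_some b (l : V) ρ (hS0 l l.2) w hw']
      exact dvd_zero _
  · intro x w hw
    cases x with
    | none =>
      exact hnone0 w fun s hs => hw (Finset.mem_image.2 ⟨s, Finset.mem_univ _, hs.symm⟩)
    | some l =>
      have hw' : ∀ s : ZMod p, w ≠ (s • (l : V), 0) ∧ w ≠ (0, s) := fun s =>
        ⟨fun hs => hw (Finset.mem_union_left _ (Finset.mem_image.2 ⟨s, Finset.mem_univ _, hs.symm⟩)),
          fun hs => hw (Finset.mem_union_right _
            (Finset.mem_image.2 ⟨s, Finset.mem_univ _, hs.symm⟩))⟩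
      show ∑ e : V × Module.Dual (ZMod p) V, (if sub1 e (0 : V) = w then nu b (l : V) e else 0) = 0
      exact combB2_some b (l : V) 0 (hS0 l l.2) w hw'

end Cop

end MP799fdf
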