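import Pool.Agent.Lib.MP_799fdf_al.Cop.CombB

/-! # Products of weights -/

set_option autoImplicit false

namespace MP799fdf

namespace Cop

open Finset

/-- The weights of a product. PROOF. `∑ e, (if tr e i = w then ∏ q, μ q (x q) (e.1 q, e.2 q) else 0)` is the product
over `q` of `∑ e_q, (if sub1 e_q (ρ i q) = w q then μ q (x q) e_q else 0)`: `Finset.prod_univ_sum`
(`Fintype.piFinset_univ`), the equivalence `(∀ q, V q × V' q) ≃ (∀ q, V q) × (∀ q, V' q)`
(`Equiv.arrowProdEquivProdArrow` or `Equiv.sum_comp`, `Fintype.sum_equiv`), and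
`(if tr = w then ∏ .. else 0) = ∏ q, (if .. then .. else 0)` (`funext_iff`, `Finset.prod_ite_zero`). -/
theorem push_prod {Q : Type} [Fintype Q] [DecidableEq Q] (pr : Q → ℕ) [∀ q, Fact (pr q).Prime]
    (V : Q → Type)
    [∀ q, AddCommGroup (V q)] [∀ q, Module (ZMod (pr q)) (V q)] [∀ q, Fintype (V q)]
    [∀ q, Fintype (Module.Dual (ZMod (pr q)) (V q))] [∀ q, DecidableEq (V q)]
    (μ : ∀ q, V q × Module.Dual (ZMod (pr q)) (V q) → ℤ) (r : ∀ q, V q) (w : WW pr V) :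
    ∑ e : (∀ q, V q) × (∀ q, Module.Dual (ZMod (pr q)) (V q)),
        (if (fun q => sub1 (e.1 q, e.2 q) (r q)) = w then ∏ q, μ q (e.1 q, e.2 q) else 0) =
      ∏ q, ∑ e : V q × Module.Dual (ZMod (pr q)) (V q),
        (if sub1 e (r q) = w q then μ q e else 0) := by
  classical
  rw [Finset.prod_univ_sum, Fintype.piFinset_univ]
  rw [← Equiv.sum_comp (Equiv.arrowProdEquivProdArrow Q V
    (fun q => Module.Dual (ZMod (pr q)) (V q)))]
  refine Finset.sum_congr rfl fun x _ => ?_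
  rw [Finset.prod_ite_zero]
  by_cases h : ∀ q, sub1 (x q) (r q) = w q
  · have h1 : (fun q => sub1 (((Equiv.arrowProdEquivProdArrow Q V
        (fun q => Module.Dual (ZMod (pr q)) (V q))) x).1 q, ((Equiv.arrowProdEquivProdArrow Q V
        (fun q => Module.Dual (ZMod (pr q)) (V q))) x).2 q) (r q)) = w := funext h
    rw [if_pos h1, if_pos (fun q _ => h q)]
    rfl
  · have h1 : ¬ (fun q => sub1 (((Equiv.arrowProdEquivProdArrow Q V
        (fun q => Module.Dual (ZMod (pr q)) (V q))) x).1 q, ((Equiv.arrowProdEquivProdArrow Q V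
        (fun q => Module.Dual (ZMod (pr q)) (V q))) x).2 q) (r q)) = w :=
      fun hh => h fun q => congrFun hh q
    have h2 : ¬ ∀ q ∈ Finset.univ, sub1 (x q) (r q) = w q :=
      fun hh => h fun q => hh q (Finset.mem_univ q)
    rw [if_neg h1, if_neg h2]

/-- PROOF. `Finset.prod_univ_sum`. -/
theorem sum_prod {Q : Type} [Fintype Q] [DecidableEq Q] (pr : Q → ℕ) (V : Q → Type)
    [∀ q, AddCommGroup (V q)] [∀ q, Module (ZMod (pr q)) (V q)] [∀ q, DecidableEq (V q)]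
    [∀ q, DecidableEq (Module.Dual (ZMod (pr q)) (V q))]
    (χ : Q → Type) [∀ q, Fintype (χ q)]
    (μ : ∀ q, χ q → V q × Module.Dual (ZMod (pr q)) (V q) → ℤ)
    (hμ : ∀ q e, ∑ x, μ q x e = if e = (0, 0) then 1 else 0)
    (e : (∀ q, V q) × (∀ q, Module.Dual (ZMod (pr q)) (V q))) :
    ∑ x : ∀ q, χ q, ∏ q, μ q (x q) (e.1 q, e.2 q) = if e = (0, 0) then 1 else 0 := by
  classical
  have h1 : ∑ x : ∀ q, χ q, ∏ q, μ q (x q) (e.1 q, e.2 q) =
      ∏ q, ∑ x : χ q, μ q x (e.1 q, e.2 q) := by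
    rw [Finset.prod_univ_sum, Fintype.piFinset_univ]
  rw [h1]
  have h2 : ∀ q, ∑ x : χ q, μ q x (e.1 q, e.2 q) = if (e.1 q = 0 ∧ e.2 q = 0) then 1 else 0 := by
    intro q
    rw [hμ]
    exact if_congr Prod.mk_inj rfl rfl
  rw [Finset.prod_congr rfl fun q _ => h2 q, Finset.prod_ite_zero, Finset.prod_const_one]
  by_cases h : e = (0, 0)
  · have h3 : ∀ q ∈ Finset.univ, e.1 q = 0 ∧ e.2 q = 0 := by
      rw [h]
      exact fun q _ => ⟨rfl, rfl⟩
    rw [if_pos h3, if_pos h]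
  · have h3 : ¬ ∀ q ∈ Finset.univ, e.1 q = 0 ∧ e.2 q = 0 := fun hh => h
      (Prod.ext (funext fun q => (hh q (Finset.mem_univ q)).1)
        (funext fun q => (hh q (Finset.mem_univ q)).2))
    rw [if_neg h3, if_neg h]

end Cop

end MP799fdf
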