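import Pool.Agent.Lib.MP_799fdf_al.Cop.CombC
import Pool.Agent.Lib.MP_799fdf_al.Cop.CombC2
import Pool.Agent.Lib.MP_799fdf_al.Cop.CombB2

/-! # The combinatorial lemma -/

set_option autoImplicit false

namespace MP799fdf

namespace Cop

open Finset

/-- Fibring a sum over the values of a map. -/
private theorem combz_fib {E W G : Type} [Fintype E] [Fintype W] [DecidableEq W] [AddCommGroup G]
    (c : E → ℤ) (g : E → W) (H : W → G) :
    ∑ e, c e • H (g e) = ∑ w, (∑ e, (if g e = w then c e else 0)) • H w := by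
  have h1 : ∀ w : W, (∑ e, (if g e = w then c e else 0)) • H w =
      ∑ e, (if g e = w then c e • H w else 0) := by
    intro w
    rw [Finset.sum_smul]
    refine Finset.sum_congr rfl fun e _ => ?_
    by_cases h : g e = w
    · rw [if_pos h, if_pos h]
    · rw [if_neg h, if_neg h, zero_smul]
  rw [Finset.sum_congr rfl fun w _ => h1 w, Finset.sum_comm]
  refine Finset.sum_congr rfl fun e _ => ?_
  rw [Finset.sum_ite_eq, if_pos (Finset.mem_univ _)]

/-- THE COMBINATORIAL LEMMA.

PROOF. (classical; `Fintype.ofFinite`.) Choose `χ q, μ q, Z q` by `one_prime` for all `q`. For `x : ∀ q, χ q` and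
`e = (L, α)` let `μ_x e = ∏ q, μ q (x q) (L q, α q)`, and `F e = f (L, α, none)`. By `sum_prod`
`∑ x, ∑ e, μ_x e • F e = F 0`. We show that `∑ e, μ_x e • F e = 0` for every `x`. Let `Z'` be the set of the points
`(τ, (w, none))` with `w q ∈ Z q (x q)` for all `q` (image of a product of finsets, `Fintype.piFinset`; at most
`|T| * (2 * B) ^ |Q|` points: `Finset.card_image_le`, `Fintype.card_piFinset`, `Finset.prod_le_pow_card`), and `h` the
representation for `Z'`. `F e = ∑ i, h i (tr e i, none)` (`no_label`), and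
`∑ e, μ_x e • h i (tr e i, none) = ∑ w, (∑ e, if tr e i = w then μ_x e else 0) • h i (w, none)`
(`Finset.sum_comm`, `Finset.sum_ite_eq`), with coefficient
`∏ q, ∑ e_q, (if sub1 e_q (ρ i q) = w q then μ q (x q) e_q else 0)` (`push_prod`). If `w q ∈ Z q (x q)` for all `q` then
`h i (w, none) = 0`. Otherwise take `q` with `w q ∉ Z q (x q)`: if `ρ i q = 0` the factor of `q` is `0`, and if
`ρ i q ≠ 0` it is divisible by `M q`, and `M q • h i (w, none) = 0`. -/
theorem comb {T Q ι G : Type} [Finite T] [Finite Q] [Fintype ι] [DecidableEq ι]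
    (pr : Q → ℕ) [∀ q, Fact (pr q).Prime] (V : Q → Type) [∀ q, AddCommGroup (V q)]
    [∀ q, Module (ZMod (pr q)) (V q)] [∀ q, Finite (V q)] [AddCommGroup G] (t : ι → T)
    (ρ : ι → ∀ q, V q) (f : EE pr V ι → G) (M : Q → ℕ) (hM : ∀ q, (M q).Coprime (pr q))
    (B m : ℕ) (hB : ∀ q, pr q ≤ B) (hm : Nat.card T * (2 * B) ^ Nat.card Q + 2 ≤ m)
    (hf : ∀ Z : Finset (XX pr V T ι), Z.card ≤ m →
      ∃ h : ι → WW pr V × Option ι → G,
        (∀ i w, (t i, w) ∈ Z → h i w = 0) ∧
        (∀ i q, ρ i q ≠ 0 → ∀ w, M q • h i w = 0) ∧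
        ∀ e, f e = ∑ i, h i (tr pr V ρ e i, lab e.2.2 i)) :
    f (0, 0, none) = 0 := by
  classical
  haveI : Fintype T := Fintype.ofFinite T
  haveI : Fintype Q := Fintype.ofFinite Q
  haveI hV : ∀ q, Fintype (V q) := fun q => Fintype.ofFinite (V q)
  haveI hNZ : ∀ q, NeZero (pr q) := fun q => ⟨(Fact.out : (pr q).Prime).ne_zero⟩
  haveI hFin : ∀ q, Finite (Module.Dual (ZMod (pr q)) (V q)) := fun q =>
    Finite.of_injective (fun g : Module.Dual (ZMod (pr q)) (V q) => (g : V q → ZMod (pr q)))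
      DFunLike.coe_injective
  haveI hD : ∀ q, Fintype (Module.Dual (ZMod (pr q)) (V q)) := fun q => Fintype.ofFinite _
  choose χ hχ μ Z hZcard hsum hdvd hzero using
    fun q => one_prime (p := pr q) (V := V q) (M q) (hM q)
  letI : ∀ q, Fintype (χ q) := hχ
  have key : ∀ x : ∀ q, χ q,
      ∑ e : (∀ q, V q) × (∀ q, Module.Dual (ZMod (pr q)) (V q)),
        (∏ q, μ q (x q) (e.1 q, e.2 q)) • f (e.1, e.2, none) = 0 := by
    intro x
    let W' : Finset (WW pr V) := Fintype.piFinset (fun q => Z q (x q))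
    let Z' : Finset (XX pr V T ι) :=
      ((Finset.univ : Finset T) ×ˢ W').image (fun y => (y.1, (y.2, none)))
    have hcard : Z'.card ≤ m := by
      have h1 : Z'.card ≤ ((Finset.univ : Finset T) ×ˢ W').card := Finset.card_image_le
      have h2 : W'.card ≤ (2 * B) ^ Nat.card Q := by
        rw [Nat.card_eq_fintype_card]
        show (Fintype.piFinset (fun q => Z q (x q))).card ≤ _
        rw [Fintype.card_piFinset]
        refine Finset.prod_le_pow_card _ _ _ fun q _ => ?_
        exact (hZcard q (x q)).trans (Nat.mul_le_mul_left 2 (hB q))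
      rw [Finset.card_product, Finset.card_univ, ← Nat.card_eq_fintype_card] at h1
      have h3 := Nat.mul_le_mul_left (Nat.card T) h2
      omega
    obtain ⟨h, h1, h2, h3⟩ := hf Z' hcard
    have hF : ∀ e : (∀ q, V q) × (∀ q, Module.Dual (ZMod (pr q)) (V q)),
        f (e.1, e.2, none) =
          ∑ i, h i ((fun q => sub1 (e.1 q, e.2 q) (ρ i q)), none) := by
      intro e
      exact no_label pr V t ρ f m (by omega)
        (fun h => ∀ i q, ρ i q ≠ 0 → ∀ w, M q • h i w = 0) hf h h3 (e.1, e.2, none)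
    have hstep : ∀ i : ι,
        ∑ e : (∀ q, V q) × (∀ q, Module.Dual (ZMod (pr q)) (V q)),
          (∏ q, μ q (x q) (e.1 q, e.2 q)) •
            h i ((fun q => sub1 (e.1 q, e.2 q) (ρ i q)), none) = 0 := by
      intro i
      have hfib := combz_fib
        (E := (∀ q, V q) × (∀ q, Module.Dual (ZMod (pr q)) (V q))) (W := WW pr V)
        (fun e => ∏ q, μ q (x q) (e.1 q, e.2 q))
        (fun e => (fun q => sub1 (e.1 q, e.2 q) (ρ i q))) (fun w => h i (w, none))
      rw [hfib]
      refine Finset.sum_eq_zero fun w _ => ?_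
      rw [push_prod pr V (fun q => μ q (x q)) (ρ i) w]
      by_cases hw : ∀ q, w q ∈ Z q (x q)
      · have hmem : (t i, (w, (none : Option ι))) ∈ Z' := by
          refine Finset.mem_image.2 ⟨(t i, w), ?_, rfl⟩
          exact Finset.mem_product.2 ⟨Finset.mem_univ _, Fintype.mem_piFinset.2 hw⟩
        rw [h1 i (w, none) hmem, smul_zero]
      · push Not at hw
        obtain ⟨q, hq⟩ := hw
        by_cases hρ : ρ i q = 0
        · have hz : ∑ e : V q × Module.Dual (ZMod (pr q)) (V q),
              (if sub1 e (ρ i q) = w q then μ q (x q) e else 0) = 0 := by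
            rw [hρ]
            exact hzero q (x q) (w q) hq
          rw [Finset.prod_eq_zero (Finset.mem_univ q) hz, zero_smul]
        · have hd := hdvd q (x q) (ρ i q) (w q) hq
          have hd2 := hd.trans (Finset.dvd_prod_of_mem
            (fun q => ∑ e : V q × Module.Dual (ZMod (pr q)) (V q),
              (if sub1 e (ρ i q) = w q then μ q (x q) e else 0)) (Finset.mem_univ q))
          obtain ⟨k, hk⟩ := hd2
          rw [hk, mul_comm, mul_smul, natCast_zsmul, h2 i q hρ (w, none), smul_zero]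
    calc ∑ e : (∀ q, V q) × (∀ q, Module.Dual (ZMod (pr q)) (V q)),
        (∏ q, μ q (x q) (e.1 q, e.2 q)) • f (e.1, e.2, none)
        = ∑ e : (∀ q, V q) × (∀ q, Module.Dual (ZMod (pr q)) (V q)), ∑ i,
          (∏ q, μ q (x q) (e.1 q, e.2 q)) •
            h i ((fun q => sub1 (e.1 q, e.2 q) (ρ i q)), none) := by
          refine Finset.sum_congr rfl fun e _ => ?_
          rw [hF e, Finset.smul_sum]
      _ = ∑ i, ∑ e : (∀ q, V q) × (∀ q, Module.Dual (ZMod (pr q)) (V q)),
          (∏ q, μ q (x q) (e.1 q, e.2 q)) •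
            h i ((fun q => sub1 (e.1 q, e.2 q) (ρ i q)), none) := Finset.sum_comm
      _ = 0 := Finset.sum_eq_zero fun i _ => hstep i
  have hS := sum_prod pr V χ μ hsum
  have h1 : ∑ e : (∀ q, V q) × (∀ q, Module.Dual (ZMod (pr q)) (V q)),
      (∑ x : ∀ q, χ q, ∏ q, μ q (x q) (e.1 q, e.2 q)) • f (e.1, e.2, none) = 0 := by
    have h2 : ∀ e : (∀ q, V q) × (∀ q, Module.Dual (ZMod (pr q)) (V q)),
        (∑ x : ∀ q, χ q, ∏ q, μ q (x q) (e.1 q, e.2 q)) • f (e.1, e.2, none) =
        ∑ x : ∀ q, χ q, (∏ q, μ q (x q) (e.1 q, e.2 q)) • f (e.1, e.2, none) :=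
      fun e => Finset.sum_smul
    rw [Finset.sum_congr rfl fun e _ => h2 e, Finset.sum_comm]
    exact Finset.sum_eq_zero fun x _ => key x
  have h2 : ∀ e : (∀ q, V q) × (∀ q, Module.Dual (ZMod (pr q)) (V q)),
      (∑ x : ∀ q, χ q, ∏ q, μ q (x q) (e.1 q, e.2 q)) • f (e.1, e.2, none) =
        if e = (0, 0) then f (0, 0, none) else 0 := by
    intro e
    rw [hS e]
    by_cases he : e = (0, 0)
    · rw [if_pos he, if_pos he, one_smul, he]
    · rw [if_neg he, if_neg he, zero_smul]
  rw [Finset.sum_congr rfl fun e _ => h2 e, Finset.sum_ite_eq' , if_pos (Finset.mem_univ _)] at h1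
  exact h1

end Cop

end MP799fdf
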