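import Pool.Agent.Lib.MP_799fdf_al.Cop.RedA
import Pool.Agent.Lib.MP_799fdf_al.Cop.Comb

/-! # Functions in all M Z -/

set_option autoImplicit false

open scoped commutatorElement

namespace MP799fdf

namespace Cop

namespace Eng

variable {K : Type} [Group K] [Finite K] {ι T Q : Type} {A : T → Type} [∀ τ, Group (A τ)]
  {pr : Q → ℕ} [∀ q, Fact (pr q).Prime] (D : Eng K ι T Q A pr) [Fintype ι] [DecidableEq ι]
  [Finite T] [Finite Q]

/-- PROOF. `comb` for the additive group `Additive D.ZZ` and `M q = ordCompl[pr q] |K|`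
(`Nat.coprime_ordCompl`); `F e` = the element with `zi (F e) = f e` (from `exists_h` with `Z = ∅`);
`zi_inj`. -/
theorem inf_M {B m : ℕ} (hB : ∀ q, pr q ≤ B) (hm : Nat.card T * (2 * B) ^ Nat.card Q + 2 ≤ m)
    (f : E (K := K) (ι := ι) (pr := pr) → K)
    (hf : ∀ Z : Finset (X (K := K) (ι := ι) (pr := pr) (T := T)), Z.card ≤ m → f ∈ D.M Z) :
    f (0, 0, none) = 1 := by
  classical
  have hm1 : 1 ≤ m := by omega
  have hne : ∀ q, NeZero (pr q) := fun q => ⟨(Fact.out : (pr q).Prime).ne_zero⟩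
  have hfin : ∀ q, Finite (HV K (pr q)) := fun q => inferInstance
  obtain ⟨h, -, -, hfe⟩ := D.exists_h hm1 f hf ∅ (by simp)
  have key := comb (G := Additive D.ZZ) pr (fun q => HV K (pr q)) D.t D.rho
    (fun e => Additive.ofMul (∏ i, h i (D.trD e i, lab e.2.2 i)))
    (fun q => ordCompl[pr q] (Nat.card K))
    (fun q => (Nat.coprime_ordCompl Fact.out Nat.card_pos.ne').symm) B m hB hm ?_
  · have h1 : ∏ i, h i (D.trD (0, 0, none) i, lab none i) = 1 :=
      Additive.ofMul.injective key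
    rw [hfe (0, 0, none)]
    change D.zi (∏ i, h i (D.trD (0, 0, none) i, lab none i)) = 1
    rw [h1, map_one]
  · intro Z hZ
    obtain ⟨h', h1, h2, h3⟩ := D.exists_h hm1 f hf Z hZ
    refine ⟨fun i w => Additive.ofMul (h' i w), fun i w hw => ?_, fun i q hq w => ?_, fun e => ?_⟩
    · exact congrArg Additive.ofMul (h1 i w hw)
    · exact congrArg Additive.ofMul (h2 i q hq w)
    · have h4 : ∏ i, h i (D.trD e i, lab e.2.2 i) = ∏ i, h' i (D.trD e i, lab e.2.2 i) := by
        apply D.zi_inj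
        rw [← hfe e, ← h3 e]
      rw [h4, ofMul_prod]

end Eng

end Cop

end MP799fdf
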