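import Pool.Agent.Lib.MP_799fdf_al.Cop.Ext
import Pool.Agent.Lib.MP_799fdf_al.Cop.MzD
import Pool.Agent.Lib.MP_799fdf_al.Cop.RedB
import Pool.Agent.Lib.MP_799fdf_al.Inn.IrrA

/-! # The engine -/

set_option autoImplicit false

open scoped commutatorElement

namespace MP799fdf

namespace Cop

/-- PROOF. `P ⧸ ⨅ M j ∈ F` (`Formation.of_family` with the maps induced by the identity), and `K` is a
quotient of it (`QuotientGroup.lift`, `Formation.of_surj`). -/
theorem mem_of_family (F : Formation) {K P J : Type} [Group P] [Finite P] [Group K] [Finite K]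
    [Finite J] [Nonempty J] (M : J → Subgroup P) [∀ j, (M j).Normal] (hM : ∀ j, F.mem (P ⧸ M j))
    (ev : P →* K) (hev : Function.Surjective ev) (h : ∀ x, (∀ j, x ∈ M j) → ev x = 1) :
    F.mem K := by
  obtain ⟨N, hN⟩ : ∃ N : Subgroup P, N = ⨅ j, M j := ⟨_, rfl⟩
  have hNn : N.Normal := by
    rw [hN]
    exact Subgroup.normal_iInf_normal fun j => inferInstance
  have hNmem : ∀ x, x ∈ N ↔ ∀ j, x ∈ M j := by
    intro x
    rw [hN, Subgroup.mem_iInf]
  have h1 : F.mem (P ⧸ N) := by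
    refine Formation.of_family F (fun j => P ⧸ M j)
      (fun j => QuotientGroup.map N (M j) (MonoidHom.id P) (fun x hx => (hNmem x).1 hx j)) ?_ hM ?_
    · intro j y
      obtain ⟨x, rfl⟩ := QuotientGroup.mk'_surjective (M j) y
      exact ⟨QuotientGroup.mk' N x, rfl⟩
    · intro y hy
      obtain ⟨x, rfl⟩ := QuotientGroup.mk'_surjective N y
      have h2 : ∀ j, x ∈ M j := fun j => (QuotientGroup.eq_one_iff x).1 (hy j)
      exact (QuotientGroup.eq_one_iff x).2 ((hNmem x).2 h2)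
  refine Formation.of_surj F (QuotientGroup.lift N ev fun x hx => h x ((hNmem x).1 hx)) ?_ h1
  intro y
  obtain ⟨x, rfl⟩ := hev y
  exact ⟨QuotientGroup.mk' N x, rfl⟩

namespace Eng

variable {K : Type} [Group K] [Finite K] {ι T Q : Type} {A : T → Type} [∀ τ, Group (A τ)]
  {pr : Q → ℕ} [∀ q, Fact (pr q).Prime] (D : Eng K ι T Q A pr) [Fintype ι] [DecidableEq ι]
  [Finite T] [Finite Q]

instance : Finite (E (K := K) (ι := ι) (pr := pr)) := by
  have h1 : ∀ q, Finite (HV K (pr q)) := fun q => inferInstance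
  have h2 : ∀ q, Finite (Module.Dual (ZMod (pr q)) (HV K (pr q))) := fun q =>
    Finite.of_injective (fun α : Module.Dual (ZMod (pr q)) (HV K (pr q)) => (α : HV K (pr q) → _))
      DFunLike.coe_injective
  infer_instance

/-- PROOF. `Formation.of_family` with the evaluations (`ext`). -/
theorem form_Pi : (form K).mem D.Pi := by
  have hne : Nonempty (E (K := K) (ι := ι) (pr := pr)) := ⟨(0, 0, none)⟩
  refine Formation.of_family (form K) (J := E (K := K) (ι := ι) (pr := pr)) (fun _ => K)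
    (fun e => (Pi.evalMonoidHom (fun _ : E (K := K) (ι := ι) (pr := pr) => K) e).comp
      D.Pi.subtype) ?_ (fun _ => mem_form K) ?_
  · intro e k
    obtain ⟨f, hf, hk⟩ := D.ext e k
    exact ⟨⟨f, hf⟩, hk⟩
  · intro x hx
    apply Subtype.ext
    funext e
    exact hx e

include D in
/-- THE ENGINE. PROOF. `mem_of_family` for the family `(M Z).subgroupOf Pi`, `Z.card ≤ m`, and the
evaluation at `(0, 0, none)` (`ext`, `inf_M`); `Pi ⧸ ..` is in `form K` (`form_Pi`, `quot`) and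
`RB (a ^ m)` (`rb_quot`, `rb_mono`). -/
theorem genM_eng [∀ τ, Finite (A τ)] {a B m : ℕ} (ha : ∀ τ, Nat.card (A τ) ≤ a) (ha1 : 1 ≤ a)
    (hB : ∀ q, pr q ≤ B) (hm : Nat.card T * (2 * B) ^ Nat.card Q + 2 ≤ m) : (Inn.genM (a ^ m) K).mem K := by
  have hZ : ∀ q, Finite (ZMod (pr q)) := fun q => by
    have : NeZero (pr q) := ⟨(Fact.out : (pr q).Prime).ne_zero⟩
    infer_instance
  have hHV : ∀ q, Finite (HV K (pr q)) := fun q => inferInstance
  have hfin : Finite (X (K := K) (ι := ι) (pr := pr) (T := T)) := inferInstance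
  have hfin2 : Finite (Finset (X (K := K) (ι := ι) (pr := pr) (T := T))) := inferInstance
  have hne : Nonempty {Z : Finset (X (K := K) (ι := ι) (pr := pr) (T := T)) // Z.card ≤ m} :=
    ⟨⟨∅, by simp⟩⟩
  have hnorm : ∀ Z : {Z : Finset (X (K := K) (ι := ι) (pr := pr) (T := T)) // Z.card ≤ m},
      ((D.M Z.1).subgroupOf D.Pi).Normal := fun Z => D.M_normal Z.1
  refine mem_of_family (Inn.genM (a ^ m) K)
    (J := {Z : Finset (X (K := K) (ι := ι) (pr := pr) (T := T)) // Z.card ≤ m})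
    (fun Z => (D.M Z.1).subgroupOf D.Pi) (fun Z => ?_)
    ((Pi.evalMonoidHom (fun _ : E (K := K) (ι := ι) (pr := pr) => K) (0, 0, none)).comp
      D.Pi.subtype) ?_ ?_
  · intro F hF
    exact hF _ ⟨(form K).quot D.Pi _ D.form_Pi,
      Inn.rb_mono (Nat.pow_le_pow_right ha1 Z.2) (D.rb_quot ha Z.1)⟩
  · intro k
    obtain ⟨f, hf, hk⟩ := D.ext (0, 0, none) k
    exact ⟨⟨f, hf⟩, hk⟩
  · intro x hx
    exact D.inf_M hB hm x.1 fun Z hZm => Subgroup.mem_subgroupOf.1 (hx ⟨Z, hZm⟩)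

end Eng

end Cop

end MP799fdf
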