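import Pool.Agent.Lib.MP_799fdf_al.Inn.LocB
import Pool.Agent.Lib.MP_799fdf_al.Inn.KStrA

/-! # The condition -/

set_option autoImplicit false

open scoped commutatorElement

namespace MP799fdf

namespace Cop

open Inn

/-- `N` is central in `L` and the outer part is cyclic of squarefree order coprime to `|N|`. -/
def Gd {K : Type} [Group K] {L N : Subgroup K} (h : Loc L N) : Prop :=
  ⁅N, L⁆ = ⊥ ∧ (∃ g : K, L ⊔ cen L N h.nN ⊔ Subgroup.zpowers g = ⊤) ∧
    Squarefree (L ⊔ cen L N h.nN).index ∧ (L ⊔ cen L N h.nN).index.Coprime (Nat.card N)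

/-- the condition for all local pairs with `N ≠ ⊥` -/
def CP (K : Type) [Group K] : Prop := ∀ (L N : Subgroup K) (h : Loc L N), N = ⊥ ∨ Gd h

/-- the condition for all local pairs -/
def CPs (K : Type) [Group K] : Prop := ∀ (L N : Subgroup K) (h : Loc L N), Gd h

private theorem cp_cen_comap {A B : Type} [Group A] [Group B] (f : A →* B)
    {L N : Subgroup B} {L' N' : Subgroup A} (h : Loc L N) (h' : Loc L' N') (h1 : L'.map f = L)
    (h2 : N' = L' ⊓ N.comap f) :
    cen L' N' h'.nN = (cen L N h.nN).comap f := by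
  ext x
  rw [Subgroup.mem_comap, mem_cen, mem_cen]
  constructor
  · intro hx z hz
    rw [← h1] at hz
    obtain ⟨y, hy, rfl⟩ := Subgroup.mem_map.1 hz
    have h3 := hx y hy
    rw [h2] at h3
    have h4 := Subgroup.mem_comap.1 (Subgroup.mem_inf.1 h3).2
    rwa [map_commutatorElement] at h4
  · intro hx y hy
    rw [h2]
    refine Subgroup.mem_inf.2 ⟨?_, ?_⟩
    · rw [commutatorElement_def]
      exact L'.mul_mem (h'.nR.conj_mem _ hy x) (L'.inv_mem hy)
    · rw [Subgroup.mem_comap, map_commutatorElement]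
      exact hx (f y) (by rw [← h1]; exact Subgroup.mem_map_of_mem f hy)

private theorem cp_ker_le {A B : Type} [Group A] [Group B] (f : A →* B)
    {L N : Subgroup B} {L' N' : Subgroup A} (h : Loc L N) (h' : Loc L' N') (h1 : L'.map f = L)
    (h2 : N' = L' ⊓ N.comap f) : f.ker ≤ L' ⊔ cen L' N' h'.nN := by
  refine le_trans ?_ le_sup_right
  rw [cp_cen_comap f h h' h1 h2]
  intro x hx
  rw [Subgroup.mem_comap, MonoidHom.mem_ker.1 hx]
  exact Subgroup.one_mem _

private theorem cp_map {A B : Type} [Group A] [Group B] (f : A →* B)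
    (hf : Function.Surjective f)
    {L N : Subgroup B} {L' N' : Subgroup A} (h : Loc L N) (h' : Loc L' N') (h1 : L'.map f = L)
    (h2 : N' = L' ⊓ N.comap f) :
    (L' ⊔ cen L' N' h'.nN).map f = L ⊔ cen L N h.nN := by
  rw [Subgroup.map_sup, h1, cp_cen_comap f h h' h1 h2, Subgroup.map_comap_eq_self_of_surjective hf]

private theorem cp_mapN {A B : Type} [Group A] [Group B] (f : A →* B)
    {L N : Subgroup B} {L' N' : Subgroup A} (h : Loc L N) (h1 : L'.map f = L)
    (h2 : N' = L' ⊓ N.comap f) : N'.map f = N := by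
  apply le_antisymm
  · rw [Subgroup.map_le_iff_le_comap, h2]
    exact inf_le_right
  · intro n hn
    have h3 : n ∈ L'.map f := by
      rw [h1]
      exact h.lt.le hn
    obtain ⟨y, hy, rfl⟩ := Subgroup.mem_map.1 h3
    refine Subgroup.mem_map_of_mem f ?_
    rw [h2]
    exact Subgroup.mem_inf.2 ⟨hy, Subgroup.mem_comap.2 hn⟩

/-- PROOF. Let `f : A → B` be surjective, `(L', N')` local in `A`, `L'.map f = L`, `N' = L' ⊓ N.comap f`.
`L ⊔ cen L N = (L' ⊔ cen L' N').map f` (`x ∈ cen L' N' ↔ f x ∈ cen L N`) and `f.ker ≤ cen L' N'`, so the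
indices are equal (`Subgroup.index_map_eq`, or `index_comap_of_surjective`). -/
theorem index_lift {A B : Type} [Group A] [Group B] (f : A →* B) (hf : Function.Surjective f)
    {L N : Subgroup B} {L' N' : Subgroup A} (h : Loc L N) (h' : Loc L' N') (h1 : L'.map f = L)
    (h2 : N' = L' ⊓ N.comap f) :
    (L ⊔ cen L N h.nN).index = (L' ⊔ cen L' N' h'.nN).index := by
  rw [← cp_map f hf h h' h1 h2]
  exact Subgroup.index_map_eq _ hf (cp_ker_le f h h' h1 h2)

/-- PROOF. `index_lift`; `N = N'.map f`, `Nat.card N ∣ Nat.card N'` (`Subgroup.card_dvd_of_surjective` or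
`card_map_dvd`), `⁅N, L⁆ = ⁅N', L'⁆.map f`; the image of `L' ⊔ cen L' N' ⊔ zpowers g` (`Subgroup.map_sup`,
`MonoidHom.map_zpowers`, `map_top_of_surjective`). -/
theorem gd_lift {A B : Type} [Group A] [Finite A] [Group B] [Finite B] (f : A →* B)
    (hf : Function.Surjective f)
    {L N : Subgroup B} {L' N' : Subgroup A} (h : Loc L N) (h' : Loc L' N') (h1 : L'.map f = L)
    (h2 : N' = L' ⊓ N.comap f) (hg : Gd h') : Gd h := by
  obtain ⟨g1, ⟨g, hg2⟩, g3, g4⟩ := hg
  have hN := cp_mapN f h h1 h2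
  refine ⟨?_, ⟨f g, ?_⟩, ?_, ?_⟩
  · calc ⁅N, L⁆ = ⁅N'.map f, L'.map f⁆ := by rw [hN, h1]
      _ = (⁅N', L'⁆).map f := (Subgroup.map_commutator _ _ _).symm
      _ = ⊥ := by rw [g1, Subgroup.map_bot]
  · rw [← cp_map f hf h h' h1 h2, ← MonoidHom.map_zpowers, ← Subgroup.map_sup, hg2,
      Subgroup.map_top_of_surjective f hf]
  · rw [index_lift f hf h h' h1 h2]
    exact g3
  · rw [index_lift f hf h h' h1 h2]
    refine Nat.Coprime.coprime_dvd_right ?_ g4
    rw [← hN]
    exact Subgroup.card_map_dvd N' f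

/-- The condition on the outer part goes up. PROOF. `index_lift`; `g'` with `f g' = g`; the comap of
`L ⊔ cen L N ⊔ zpowers g = ⊤`: `f.ker ≤ cen L' N'` and `(L' ⊔ cen L' N' ⊔ zpowers g').map f = ⊤`
(`Subgroup.comap_map_eq`). -/
theorem gd_up {A B : Type} [Group A] [Finite A] [Group B] [Finite B] (f : A →* B)
    (hf : Function.Surjective f)
    {L N : Subgroup B} {L' N' : Subgroup A} (h : Loc L N) (h' : Loc L' N') (h1 : L'.map f = L)
    (h2 : N' = L' ⊓ N.comap f) (hg : Gd h) :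
    (∃ g : A, L' ⊔ cen L' N' h'.nN ⊔ Subgroup.zpowers g = ⊤) ∧
    Squarefree (L' ⊔ cen L' N' h'.nN).index := by
  obtain ⟨-, ⟨g, hg2⟩, g3, -⟩ := hg
  obtain ⟨g', rfl⟩ := hf g
  refine ⟨⟨g', ?_⟩, ?_⟩
  · have h3 : (L' ⊔ cen L' N' h'.nN ⊔ Subgroup.zpowers g').map f = ⊤ := by
      rw [Subgroup.map_sup, cp_map f hf h h' h1 h2, MonoidHom.map_zpowers, hg2]
    have h4 : f.ker ≤ L' ⊔ cen L' N' h'.nN ⊔ Subgroup.zpowers g' :=
      (cp_ker_le f h h' h1 h2).trans le_sup_left
    have h5 := Subgroup.comap_map_eq f (L' ⊔ cen L' N' h'.nN ⊔ Subgroup.zpowers g')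
    rw [h3, Subgroup.comap_top, sup_eq_left.2 h4] at h5
    exact h5.symm
  · rw [← index_lift f hf h h' h1 h2]
    exact g3

end Cop

end MP799fdf
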