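import Pool.Agent.Lib.MP_799fdf_al.Cop.Defs

/-! # Counting linear functionals -/

set_option autoImplicit false

namespace MP799fdf

namespace Cop

open Finset

variable {p : ℕ} [Fact p.Prime] {V : Type} [AddCommGroup V] [Module (ZMod p) V]

/-- the substitution for one prime -/
def sub1 (e : V × Module.Dual (ZMod p) V) (ρ : V) : V × ZMod p := (ρ - e.2 ρ • e.1, e.2 ρ)

private theorem comba_exists (l : V) (S : Submodule (ZMod p) V) (h : l ∉ S) :
    ∃ β : Module.Dual (ZMod p) V, β l = 1 ∧ ∀ x ∈ S, β x = 0 := by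
  obtain ⟨f, hf, hS⟩ := Submodule.exists_le_ker_of_notMem (K := ZMod p) h
  refine ⟨(f l)⁻¹ • f, ?_, fun x hx => ?_⟩
  · rw [LinearMap.smul_apply, smul_eq_mul, inv_mul_cancel₀ hf]
  · rw [LinearMap.smul_apply, LinearMap.mem_ker.1 (hS hx), smul_zero]

/-- PROOF. `ρ` is not in the span of `l ≠ 0`, so there is a functional `β` with `β l = 1`, `β ρ = 0` (a functional
that vanishes on `ρ` and not on `l` exists if `l` is not in the span of `ρ`: `l = s • ρ`, `s ≠ 0`, would give
`ρ = s⁻¹ • l`; e.g. `Submodule.exists_le_ker_of_notMem`; scale it). The translation `α ↦ α + β` is a bijection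
from `{α l = 0}` to `{α l = 1}` and keeps `α ρ` (`Finset.card_bij'`, `card_nbij'`). -/
theorem count_eq [Fintype (Module.Dual (ZMod p) V)] [DecidableEq (V × ZMod p)] (l ρ : V)
    (hl : l ≠ 0) (hρ : ∀ s : ZMod p, ρ ≠ s • l) (w : V × ZMod p) :
    (univ.filter (fun α : Module.Dual (ZMod p) V => α l = 0 ∧ sub1 (l, α) ρ = w)).card =
      (univ.filter (fun α : Module.Dual (ZMod p) V => α l = 1 ∧ sub1 (l, α) ρ = w)).card := by
  have hn : l ∉ Submodule.span (ZMod p) ({ρ} : Set V) := by
    intro h
    obtain ⟨s, hs⟩ := Submodule.mem_span_singleton.1 h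
    have hs0 : s ≠ 0 := by
      rintro rfl
      rw [zero_smul] at hs
      exact hl hs.symm
    apply hρ s⁻¹
    rw [← hs, smul_smul, inv_mul_cancel₀ hs0, one_smul]
  obtain ⟨β, hβ1, hβ2⟩ := comba_exists l _ hn
  have hβρ : β ρ = 0 := hβ2 ρ (Submodule.mem_span_singleton_self ρ)
  refine Finset.card_bij' (fun α _ => α + β) (fun α _ => α - β) ?_ ?_ ?_ ?_
  · intro α hα
    rw [mem_filter] at hα ⊢
    refine ⟨mem_univ _, ?_, ?_⟩
    · rw [LinearMap.add_apply, hα.2.1, hβ1, zero_add]
    · rw [← hα.2.2]
      simp only [sub1, LinearMap.add_apply, hβρ, add_zero]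
  · intro α hα
    rw [mem_filter] at hα ⊢
    refine ⟨mem_univ _, ?_, ?_⟩
    · rw [LinearMap.sub_apply, hα.2.1, hβ1, sub_self]
    · rw [← hα.2.2]
      simp only [sub1, LinearMap.sub_apply, hβρ, sub_zero]
  · intro α _
    simp
  · intro α _
    simp

/-- PROOF. There is a functional `β` with `β l = 1`. The translations by the `s • β` are bijections between the
sets `{α l = s}`, whose union over the `p` values `s` is everything
(`Finset.card_eq_sum_card_fiberwise`). -/
theorem card_zero [Fintype (Module.Dual (ZMod p) V)] (l : V) (hl : l ≠ 0) (s : ZMod p) :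
    p * (univ.filter (fun α : Module.Dual (ZMod p) V => α l = s)).card =
      Fintype.card (Module.Dual (ZMod p) V) := by
  classical
  have hn : l ∉ (⊥ : Submodule (ZMod p) V) := by
    rw [Submodule.mem_bot]
    exact hl
  obtain ⟨β, hβ1, -⟩ := comba_exists l _ hn
  have key : ∀ t : ZMod p,
      (univ.filter (fun α : Module.Dual (ZMod p) V => α l = t)).card =
        (univ.filter (fun α : Module.Dual (ZMod p) V => α l = s)).card := by
    intro t
    refine Finset.card_bij' (fun α _ => α + (s - t) • β) (fun α _ => α - (s - t) • β) ?_ ?_ ?_ ?_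
    · intro α hα
      rw [mem_filter] at hα ⊢
      refine ⟨mem_univ _, ?_⟩
      rw [LinearMap.add_apply, LinearMap.smul_apply, hα.2, hβ1, smul_eq_mul, mul_one,
        add_sub_cancel]
    · intro α hα
      rw [mem_filter] at hα ⊢
      refine ⟨mem_univ _, ?_⟩
      rw [LinearMap.sub_apply, LinearMap.smul_apply, hα.2, hβ1, smul_eq_mul, mul_one,
        sub_sub_cancel]
    · intro α _
      simp
    · intro α _
      simp
  have h1 : Fintype.card (Module.Dual (ZMod p) V) =
      ∑ t : ZMod p, (univ.filter (fun α : Module.Dual (ZMod p) V => α l = t)).card := by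
    rw [← Finset.card_univ]
    exact Finset.card_eq_sum_card_fiberwise (f := fun α : Module.Dual (ZMod p) V => α l)
      (t := univ) (fun α _ => by simp)
  rw [h1, Finset.sum_congr rfl (fun t _ => key t), Finset.sum_const, Finset.card_univ, ZMod.card,
    smul_eq_mul]

end Cop

end MP799fdf
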