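import Pool.Agent.Lib.MP_799fdf_al.Cop.CombA

/-! # One prime -/

set_option autoImplicit false

namespace MP799fdf

namespace Cop

open Finset

variable {p : ℕ} [Fact p.Prime] {V : Type} [AddCommGroup V] [Module (ZMod p) V]

/-- the weight of the line of `l` -/
noncomputable def nu [DecidableEq V] (b : ℤ) (l : V) (e : V × Module.Dual (ZMod p) V) : ℤ :=
  if e.1 = l then (if e.2 l = 0 then b * p else if e.2 l = 1 then - (b * p) else 0) else 0

theorem combB_sum [DecidableEq V] [Fintype V] [Fintype (Module.Dual (ZMod p) V)]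
    (b : ℤ) (l ρ : V) (w : V × ZMod p) :
    ∑ e : V × Module.Dual (ZMod p) V, (if sub1 e ρ = w then nu b l e else 0) =
      b * p * (((univ.filter (fun α : Module.Dual (ZMod p) V =>
        α l = 0 ∧ sub1 (l, α) ρ = w)).card : ℤ) -
        ((univ.filter (fun α : Module.Dual (ZMod p) V =>
          α l = 1 ∧ sub1 (l, α) ρ = w)).card : ℤ)) := by
  rw [Fintype.sum_prod_type, Finset.sum_eq_single l]
  · rw [Finset.card_filter, Finset.card_filter]
    push_cast
    rw [← Finset.sum_sub_distrib, Finset.mul_sum]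
    refine Finset.sum_congr rfl fun α _ => ?_
    by_cases hw : sub1 (l, α) ρ = w
    · by_cases h0 : α l = 0
      · simp [nu, hw, h0]
      · by_cases h1 : α l = 1
        · simp [nu, hw, h1]
        · simp [nu, h0, h1]
    · simp [hw]
  · intro l' _ hl'
    refine Finset.sum_eq_zero fun α _ => ?_
    simp [nu, hl']
  · intro h
    exact absurd (mem_univ _) h

/-- PROOF. The sum over `e = (l', α)` reduces to `l' = l` (`Fintype.sum_prod_type`, `Finset.sum_ite_eq`), and is
`b * p * (#{α l = 0, sub1 = w} - #{α l = 1, sub1 = w})`. If `α l = 0` then `sub1 (l, α) ρ = (ρ, 0)`, if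
`α l = 1` then `sub1 (l, α) ρ = (0, s)`. `card_zero`. -/
theorem push_on [DecidableEq V] [Fintype V] [Fintype (Module.Dual (ZMod p) V)]
    (b : ℤ) (l ρ : V) (hl : l ≠ 0) (s : ZMod p) (hρ : ρ = s • l) (w : V × ZMod p) :
    ∑ e : V × Module.Dual (ZMod p) V, (if sub1 e ρ = w then nu b l e else 0) =
      b * Fintype.card (Module.Dual (ZMod p) V) *
        ((if w = (ρ, 0) then 1 else 0) - (if w = (0, s) then 1 else 0)) := by
  have e0 : ((univ.filter (fun α : Module.Dual (ZMod p) V =>
      α l = 0 ∧ sub1 (l, α) ρ = w)).card : ℤ) = (if w = (ρ, 0) then 1 else 0) *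
        ((univ.filter (fun α : Module.Dual (ZMod p) V => α l = 0)).card : ℤ) := by
    have key : ∀ α : Module.Dual (ZMod p) V, α l = 0 → sub1 (l, α) ρ = (ρ, 0) := by
      intro α h
      have h1 : α ρ = 0 := by rw [hρ, map_smul, h, smul_zero]
      simp [sub1, h1]
    by_cases hw : w = (ρ, 0)
    · rw [if_pos hw, one_mul]
      congr 2
      ext α
      simp only [Finset.mem_filter, Finset.mem_univ, true_and]
      exact ⟨fun h => h.1, fun h => ⟨h, by rw [key α h, hw]⟩⟩
    · rw [if_neg hw, zero_mul]
      have : (univ.filter (fun α : Module.Dual (ZMod p) V =>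
          α l = 0 ∧ sub1 (l, α) ρ = w)) = ∅ := by
        refine Finset.filter_eq_empty_iff.2 fun α _ h => ?_
        exact hw (by rw [← h.2, key α h.1])
      rw [this]
      simp
  have e1 : ((univ.filter (fun α : Module.Dual (ZMod p) V =>
      α l = 1 ∧ sub1 (l, α) ρ = w)).card : ℤ) = (if w = (0, s) then 1 else 0) *
        ((univ.filter (fun α : Module.Dual (ZMod p) V => α l = 1)).card : ℤ) := by
    have key : ∀ α : Module.Dual (ZMod p) V, α l = 1 → sub1 (l, α) ρ = (0, s) := by
      intro α h
      have h1 : α ρ = s := by rw [hρ, map_smul, h, smul_eq_mul, mul_one]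
      simp only [sub1, h1]
      rw [hρ, sub_self]
    by_cases hw : w = (0, s)
    · rw [if_pos hw, one_mul]
      congr 2
      ext α
      simp only [Finset.mem_filter, Finset.mem_univ, true_and]
      exact ⟨fun h => h.1, fun h => ⟨h, by rw [key α h, hw]⟩⟩
    · rw [if_neg hw, zero_mul]
      have : (univ.filter (fun α : Module.Dual (ZMod p) V =>
          α l = 1 ∧ sub1 (l, α) ρ = w)) = ∅ := by
        refine Finset.filter_eq_empty_iff.2 fun α _ h => ?_
        exact hw (by rw [← h.2, key α h.1])
      rw [this]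
      simp
  have c0 : (p : ℤ) * ((univ.filter (fun α : Module.Dual (ZMod p) V => α l = 0)).card : ℤ) =
      (Fintype.card (Module.Dual (ZMod p) V) : ℤ) := by
    have := card_zero l hl (0 : ZMod p)
    exact_mod_cast this
  have c1 : (p : ℤ) * ((univ.filter (fun α : Module.Dual (ZMod p) V => α l = 1)).card : ℤ) =
      (Fintype.card (Module.Dual (ZMod p) V) : ℤ) := by
    have := card_zero l hl (1 : ZMod p)
    exact_mod_cast this
  rw [combB_sum, e0, e1]
  have h0 := congrArg (fun z : ℤ => b * (if w = (ρ, 0) then 1 else 0) * z) c0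
  have h1 := congrArg (fun z : ℤ => b * (if w = (0, s) then 1 else 0) * z) c1
  rw [mul_sub, mul_sub]
  linear_combination h0 - h1

/-- PROOF. As `push_on`, `count_eq`. -/
theorem push_off [DecidableEq V] [Fintype V] [Fintype (Module.Dual (ZMod p) V)]
    (b : ℤ) (l ρ : V) (hl : l ≠ 0) (hρ : ∀ s : ZMod p, ρ ≠ s • l) (w : V × ZMod p) :
    ∑ e : V × Module.Dual (ZMod p) V, (if sub1 e ρ = w then nu b l e else 0) = 0 := by
  rw [combB_sum, count_eq l ρ hl hρ w, sub_self, mul_zero]

end Cop

end MP799fdf
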