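import Pool.Agent.Lib.MP_799fdf_al.Cop.Defs

/-! # All primes -/

set_option autoImplicit false

namespace MP799fdf

namespace Cop

open Finset

private theorem no_label_diff {Q ι G : Type} [Fintype ι] [DecidableEq ι]
    (pr : Q → ℕ) (V : Q → Type) [∀ q, AddCommGroup (V q)]
    [∀ q, Module (ZMod (pr q)) (V q)] [AddCommGroup G]
    (ρ : ι → ∀ q, V q) (f : EE pr V ι → G)
    (h : ι → WW pr V × Option ι → G) (hh : ∀ e, f e = ∑ i, h i (tr pr V ρ e i, lab e.2.2 i))
    (e : EE pr V ι) (j : ι) :
    f (e.1, e.2.1, none) - f (e.1, e.2.1, some j) =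
      h j (tr pr V ρ e j, some j) - h j (tr pr V ρ e j, none) := by
  rw [hh, hh, ← Finset.sum_sub_distrib, Finset.sum_eq_single j]
  · have h1 : lab (none : Option ι) j = some j := by simp [lab]
    have h2 : lab (some j) j = none := by simp [lab]
    show h j (tr pr V ρ e j, lab none j) - h j (tr pr V ρ e j, lab (some j) j) = _
    rw [h1, h2]
  · intro i _ hij
    have h1 : lab (none : Option ι) i = some i := by simp [lab]
    have h2 : lab (some j) i = some i := by
      have : (some j : Option ι) ≠ some i := fun h => hij (Option.some.inj h).symm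
      simp [lab, this]
    show h i (tr pr V ρ e i, lab none i) - h i (tr pr V ρ e i, lab (some j) i) = 0
    rw [h1, h2, sub_self]
  · intro hj
    exact absurd (Finset.mem_univ j) hj

/-- Labels. PROOF. For `e = (L, α, J)` and `j` write `P = (t j, tr e j, some j)`, `P' = (t j, tr e j, none)` (`tr` does
not depend on `J`). For every representation `h`, `f (L, α, none) - f (L, α, some j) = h j (tr, some j) -
h j (tr, none)`: the other terms agree (`lab none i = some i`, `lab (some j) i = some i` for `i ≠ j`,
`lab (some j) j = none`). It is `0`, by the representation for `Z = {P, P'}` (`2 ≤ m`). So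
`h j (tr, some j) = h j (tr, none)` for every representation. -/
theorem no_label {T Q ι G : Type} [Fintype ι] [DecidableEq ι]
    (pr : Q → ℕ) (V : Q → Type) [∀ q, AddCommGroup (V q)]
    [∀ q, Module (ZMod (pr q)) (V q)] [AddCommGroup G] (t : ι → T)
    (ρ : ι → ∀ q, V q) (f : EE pr V ι → G) (m : ℕ) (hm : 2 ≤ m)
    (C : (ι → WW pr V × Option ι → G) → Prop)
    (hf : ∀ Z : Finset (XX pr V T ι), Z.card ≤ m →
      ∃ h : ι → WW pr V × Option ι → G, (∀ i w, (t i, w) ∈ Z → h i w = 0) ∧ C h ∧
        ∀ e, f e = ∑ i, h i (tr pr V ρ e i, lab e.2.2 i))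
    (h : ι → WW pr V × Option ι → G) (hh : ∀ e, f e = ∑ i, h i (tr pr V ρ e i, lab e.2.2 i))
    (e : EE pr V ι) : f (e.1, e.2.1, none) = ∑ i, h i (tr pr V ρ e i, none) := by
  classical
  have key : ∀ j, h j (tr pr V ρ e j, some j) = h j (tr pr V ρ e j, none) := by
    intro j
    obtain ⟨h', hZ, _, hh'⟩ := hf {((t j, (tr pr V ρ e j, some j)) : XX pr V T ι),
      (t j, (tr pr V ρ e j, none))} (le_trans (Finset.card_le_two) hm)
    have h1 := no_label_diff pr V ρ f h' hh' e j
    rw [hZ j (tr pr V ρ e j, some j) (by simp), hZ j (tr pr V ρ e j, none) (by simp),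
      sub_self] at h1
    have h2 := no_label_diff pr V ρ f h hh e j
    rw [h1] at h2
    exact (sub_eq_zero.1 h2.symm)
  rw [hh]
  refine Finset.sum_congr rfl fun i _ => ?_
  have h1 : lab (none : Option ι) i = some i := by simp [lab]
  show h i (tr pr V ρ e i, lab none i) = _
  rw [h1, key i]

end Cop

end MP799fdf
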