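import Pool.Agent.Lib.MP_799fdf_al.Inn.Base

/-!
# MP_799fdf_al, coprime outer parts: definitions
-/

set_option autoImplicit false

open scoped commutatorElement

namespace MP799fdf

namespace Cop

/-- the space of the homomorphisms `K → ℤ/p` -/
def HV (K : Type) [Group K] (p : ℕ) : Submodule (ZMod p) (K → ZMod p) where
  carrier := {χ | ∀ a b, χ (a * b) = χ a + χ b}
  add_mem' := by
    intro χ ψ h1 h2 a b
    simp only [Pi.add_apply, h1 a b, h2 a b]
    abel
  zero_mem' := by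
    intro a b
    simp
  smul_mem' := by
    intro s χ h a b
    simp only [Pi.smul_apply, h a b, smul_add]

/-- Local subgroups `R i` with actions `al i` on them, of types `t i`; the outer part of type `τ` is
embedded by `u τ` in the product of the `ℤ/pr q`. -/
structure Eng (K : Type) [Group K] (ι T Q : Type) (A : T → Type) [∀ τ, Group (A τ)]
    (pr : Q → ℕ) where
  R : ι → Subgroup K
  t : ι → T
  al : ∀ i, K →* A (t i)
  u : ∀ (τ : T) (q : Q), A τ → ZMod (pr q)
  pr_inj : Function.Injective pr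
  u_mul : ∀ τ q a b, u τ q (a * b) = u τ q a + u τ q b
  nR : ∀ i, (R i).Normal
  comm : ∀ i j, i ≠ j → ∀ x ∈ R i, ∀ y ∈ R j, Commute x y
  surj : ∀ i, Function.Surjective (al i)
  mapR : ∀ i a, (∀ q, u (t i) q a = 0) ↔ ∃ r ∈ R i, al i r = a
  ker : ∀ i x, al i x = 1 ↔ ∀ y ∈ R i, Commute x y
  cop : ∀ i q, (∃ k, u (t i) q (al i k) ≠ 0) → ∀ z ∈ R i, al i z = 1 →
    (orderOf z).Coprime (pr q)
  n : ℕ
  solv : dser (⊤ : Subgroup K) n ≤ ⨆ i, R i

section Pts

variable {T Q ι : Type} [DecidableEq ι] (pr : Q → ℕ) (V : Q → Type)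
  [∀ q, AddCommGroup (V q)] [∀ q, Module (ZMod (pr q)) (V q)]

/-- the vectors -/
abbrev WW : Type := ∀ q, V q × ZMod (pr q)

/-- the points: a type, a vector, a label -/
abbrev XX (T ι : Type) : Type := T × (WW pr V × Option ι)

/-- the parameters of a substitution -/
abbrev EE (ι : Type) : Type :=
  (∀ q, V q) × (∀ q, Module.Dual (ZMod (pr q)) (V q)) × Option ι

/-- the substitution `ρ ↦ ρ + α(ρ)(ε - l)` -/
def tr (ρ : ι → ∀ q, V q) (e : EE pr V ι) (i : ι) : WW pr V :=
  fun q => (ρ i q - (e.2.1 q (ρ i q)) • e.1 q, e.2.1 q (ρ i q))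

/-- the label of `i` -/
def lab (J : Option ι) (i : ι) : Option ι := if J = some i then none else some i

/-- the point of `i` -/
def pt (t : ι → T) (ρ : ι → ∀ q, V q) (e : EE pr V ι) (i : ι) : XX pr V T ι :=
  (t i, (tr pr V ρ e i, lab e.2.2 i))

end Pts

namespace Eng

variable {K : Type} [Group K] {ι T Q : Type} {A : T → Type} [∀ τ, Group (A τ)] {pr : Q → ℕ}
  (D : Eng K ι T Q A pr)

/-- the class of `R i` in the outer part, as a vector -/
def rho (i : ι) (q : Q) : HV K (pr q) :=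
  ⟨fun k => D.u (D.t i) q (D.al i k), fun a b => by
    show D.u _ _ _ = _
    rw [map_mul, D.u_mul]⟩

variable [DecidableEq ι]

/-- the parameter space -/
abbrev E : Type := EE pr (fun q => HV K (pr q)) ι

/-- the vectors -/
abbrev W : Type := WW pr (fun q => HV K (pr q))

/-- the points -/
abbrev X : Type := XX pr (fun q => HV K (pr q)) T ι

/-- the vector of `i` under the parameter `e` -/
abbrev trD (e : E (K := K) (ι := ι) (pr := pr)) (i : ι) : W (K := K) (pr := pr) :=
  tr pr (fun q => HV K (pr q)) D.rho e i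

/-- the point of `i` under the parameter `e` -/
abbrev ptD (e : E (K := K) (ι := ι) (pr := pr)) (i : ι) : X (K := K) (ι := ι) (pr := pr) (T := T) :=
  pt pr (fun q => HV K (pr q)) D.t D.rho e i

/-- the free subdirect power -/
def Pi : Subgroup (E (K := K) (ι := ι) (pr := pr) → K) where
  carrier := {f | ∃ g : ∀ x : X (K := K) (ι := ι) (pr := pr) (T := T), A x.1, ∀ e i, D.al i (f e) = g (D.ptD e i)}
  one_mem' := ⟨fun _ => 1, fun e i => (D.al i).map_one⟩
  mul_mem' := by
    rintro f f' ⟨g, hg⟩ ⟨g', hg'⟩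
    refine ⟨fun x => g x * g' x, fun e i => ?_⟩
    rw [Pi.mul_apply, map_mul, hg, hg']
    rfl
  inv_mem' := by
    rintro f ⟨g, hg⟩
    refine ⟨fun x => (g x)⁻¹, fun e i => ?_⟩
    rw [Pi.inv_apply, map_inv, hg]
    rfl

variable [Fintype ι]

/-- multiplication `∏ R i → K` -/
noncomputable def P : (∀ i, D.R i) →* K :=
  Subgroup.noncommPiCoprod fun i j hij x y hx hy => D.comm i j hij x hx y hy

/-- the normal subgroup of `Pi` belonging to a set `Z` of points -/
def M (Z : Finset (X (K := K) (ι := ι) (pr := pr) (T := T))) : Subgroup (E (K := K) (ι := ι) (pr := pr) → K) where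
  carrier := {f | ∃ r : ∀ i, W (K := K) (pr := pr) × Option ι → D.R i,
    (∃ g : ∀ x : X (K := K) (ι := ι) (pr := pr) (T := T), A x.1, ∀ i w, D.al i (r i w) = g (D.t i, w)) ∧
    (∀ i w, (D.t i, w) ∈ Z → r i w = 1) ∧
    ∀ e, f e = D.P fun i => r i (D.trD e i, lab e.2.2 i)}
  one_mem' := by
    refine ⟨fun _ _ => 1, ⟨fun _ => 1, fun i w => (D.al i).map_one⟩, fun _ _ _ => rfl, fun e => ?_⟩
    exact (D.P.map_one).symm
  mul_mem' := by
    rintro f f' ⟨r, ⟨g, hg⟩, hZ, hf⟩ ⟨r', ⟨g', hg'⟩, hZ', hf'⟩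
    refine ⟨fun i w => r i w * r' i w, ⟨fun x => g x * g' x, fun i w => ?_⟩, fun i w h => ?_,
      fun e => ?_⟩
    · rw [Subgroup.coe_mul, map_mul, hg, hg']
    · show r i w * r' i w = 1
      rw [hZ i w h, hZ' i w h, one_mul]
    · rw [Pi.mul_apply, hf, hf', ← map_mul]
      rfl
  inv_mem' := by
    rintro f ⟨r, ⟨g, hg⟩, hZ, hf⟩
    refine ⟨fun i w => (r i w)⁻¹, ⟨fun x => (g x)⁻¹, fun i w => ?_⟩, fun i w h => ?_, fun e => ?_⟩
    · rw [Subgroup.coe_inv, map_inv, hg]
    · show (r i w)⁻¹ = 1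
      rw [hZ i w h, inv_one]
    · rw [Pi.inv_apply, hf, ← map_inv]
      rfl

end Eng

end Cop

end MP799fdf
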