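import Pool.Agent.Lib.MP_799fdf_al.Cop.ExtB

/-! # The extension property -/

set_option autoImplicit false

open scoped commutatorElement

namespace MP799fdf

namespace Cop

namespace Eng

variable {K : Type} [Group K] [Finite K] {ι T Q : Type} {A : T → Type} [∀ τ, Group (A τ)]
  {pr : Q → ℕ} [∀ q, Fact (pr q).Prime] (D : Eng K ι T Q A pr) [Fintype ι] [DecidableEq ι]
  [Finite Q]

/-- PROOF. `φ q χ = χ.1 k` (linear in `χ`), `g` from `exists_g`; `f e = k`, and for `e' ≠ e` `f e'` from
`exists_k`, `exists_al` (`a i = g (ptD e' i)`, `u (a i) = ell ..` by `exists_g` with `al i k'`). -/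
theorem ext (e : E (K := K) (ι := ι) (pr := pr)) (k : K) : ∃ f ∈ D.Pi, f e = k := by
  classical
  let φ : ∀ q, Module.Dual (ZMod (pr q)) (HV K (pr q)) := fun q =>
    { toFun := fun χ => χ.1 k
      map_add' := fun χ ψ => rfl
      map_smul' := fun s χ => rfl }
  obtain ⟨g, hg1, hg2⟩ := D.exists_g φ e k (fun q χ => rfl)
  have H : ∀ e' : E (K := K) (ι := ι) (pr := pr), ∃ x : K, ∀ i, D.al i x = g (D.ptD e' i) := by
    intro e'
    obtain ⟨k', hk'⟩ := D.exists_k φ e e'
    refine D.exists_al k' (fun i => g (D.ptD e' i)) fun i q => ?_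
    rw [hk' i q]
    exact (hg2 (D.ptD e' i) ⟨D.al i k', fun q => hk' i q⟩ q).symm
  choose F hF using H
  refine ⟨fun e' => if e' = e then k else F e', ⟨g, fun e' i => ?_⟩, if_pos rfl⟩
  by_cases h : e' = e
  · subst h
    show D.al i (if e' = e' then k else F e') = g (D.ptD e' i)
    rw [if_pos rfl]
    exact (hg1 i).symm
  · show D.al i (if e' = e then k else F e') = g (D.ptD e' i)
    rw [if_neg h]
    exact hF e' i

end Eng

end Cop

end MP799fdf
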