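import Pool.Agent.Lib.MP_799fdf_al.Cop.PHomA
import Pool.Agent.Lib.MP_799fdf_al.Cop.Defs

/-! # The extension property -/

set_option autoImplicit false

open scoped commutatorElement

namespace MP799fdf

namespace Cop

namespace Eng

variable {K : Type} [Group K] [Finite K] {ι T Q : Type} {A : T → Type} [∀ τ, Group (A τ)]
  {pr : Q → ℕ} [∀ q, Fact (pr q).Prime] (D : Eng K ι T Q A pr) [Fintype ι] [DecidableEq ι]
  [Finite Q]

/-- the functional `(v, s) ↦ φ (v + s • l)` -/
def ell (φ : ∀ q, Module.Dual (ZMod (pr q)) (HV K (pr q)))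
    (e : E (K := K) (ι := ι) (pr := pr)) (x : X (K := K) (ι := ι) (pr := pr) (T := T)) (q : Q) :
    ZMod (pr q) :=
  φ q ((x.2.1 q).1 + (x.2.1 q).2 • e.1 q)

/-- PROOF. Unfold: `ρ - α ρ • l + α ρ • l = ρ`. -/
theorem ell_pt (φ : ∀ q, Module.Dual (ZMod (pr q)) (HV K (pr q)))
    (e : E (K := K) (ι := ι) (pr := pr)) (i : ι) (q : Q) :
    ell φ e (D.ptD e i) q = φ q (D.rho i q) := by
  show φ q ((D.rho i q - (e.2.1 q (D.rho i q)) • e.1 q) + (e.2.1 q (D.rho i q)) • e.1 q) = _
  rw [sub_add_cancel]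

/-- PROOF. The labels of `i` and `j` are different. (`lab J i = none` iff `J = some i`.) -/
theorem pt_inj (e : E (K := K) (ι := ι) (pr := pr)) : Function.Injective (D.ptD e) := by
  intro i j h
  have h2 : lab e.2.2 i = lab e.2.2 j := congrArg (fun x => x.2.2) h
  unfold lab at h2
  by_cases hi : e.2.2 = some i
  · by_cases hj : e.2.2 = some j
    · exact Option.some_injective _ (hi.symm.trans hj)
    · rw [if_pos hi, if_neg hj] at h2
      exact absurd h2.symm (Option.some_ne_none j)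
  · by_cases hj : e.2.2 = some j
    · rw [if_neg hi, if_pos hj] at h2
      exact absurd h2 (Option.some_ne_none i)
    · rw [if_neg hi, if_neg hj] at h2
      exact Option.some_injective _ h2

/-- PROOF. For `x = ptD e i` take `D.al i k` (unique `i` by `pt_inj`; `by_cases h : ∃ i, D.ptD e i = x`,
`obtain ⟨i, rfl⟩`; `u (al i k) = (rho i q).1 k = φ .. (rho i q) = ell ..` by `ell_pt`, `hφ`); otherwise take `a`
with `u a = ell x` if there is one, and `1` if not. (Prove `∀ x, ∃ a : A x.1, ..` first, with the first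
condition stated as `∀ i (h : D.ptD e i = x), a = h ▸ (D.al i k : A (D.ptD e i).1)` or by `HEq`.) -/
theorem exists_g (φ : ∀ q, Module.Dual (ZMod (pr q)) (HV K (pr q)))
    (e : E (K := K) (ι := ι) (pr := pr)) (k : K)
    (hφ : ∀ (q : Q) (χ : HV K (pr q)), χ.1 k = φ q χ) :
    ∃ g : ∀ x : X (K := K) (ι := ι) (pr := pr) (T := T), A x.1,
      (∀ i, g (D.ptD e i) = D.al i k) ∧
      ∀ x, (∃ a, ∀ q, D.u x.1 q a = ell φ e x q) → ∀ q, D.u x.1 q (g x) = ell φ e x q := by
  have key : ∀ x : X (K := K) (ι := ι) (pr := pr) (T := T), ∃ a : A x.1,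
      (∀ i, D.ptD e i = x → HEq a (D.al i k)) ∧
      ((∃ a, ∀ q, D.u x.1 q a = ell φ e x q) → ∀ q, D.u x.1 q a = ell φ e x q) := by
    intro x
    by_cases h : ∃ i, D.ptD e i = x
    · obtain ⟨i, rfl⟩ := h
      refine ⟨D.al i k, ?_, ?_⟩
      · intro j hj
        have hji : j = i := D.pt_inj e hj
        subst hji
        exact HEq.rfl
      · intro _ q
        rw [ell_pt, ← hφ]
        rfl
    · by_cases h2 : ∃ a : A x.1, ∀ q, D.u x.1 q a = ell φ e x q
      · obtain ⟨a, ha⟩ := h2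
        exact ⟨a, fun i hi => absurd ⟨i, hi⟩ h, fun _ => ha⟩
      · exact ⟨1, fun i hi => absurd ⟨i, hi⟩ h, fun h3 => absurd h3 h2⟩
  choose g hg using key
  exact ⟨g, fun i => eq_of_heq ((hg _).1 i rfl), fun x => (hg x).2⟩

end Eng

end Cop

end MP799fdf
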