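import Pool.Agent.Lib.MP_799fdf_al.Cop.Kap

/-! # Evaluation, all primes -/

set_option autoImplicit false

namespace MP799fdf

namespace Cop

private theorem kapb_one_val {K : Type} [Group K] {p : ℕ} (χ : HV K p) : χ.1 1 = 0 := by
  have h := χ.2 1 1
  rw [mul_one] at h
  exact left_eq_add.1 h

private theorem kapb_pow {K : Type} [Group K] {p : ℕ} (χ : HV K p) (k : K) (n : ℕ) :
    χ.1 (k ^ n) = (n : ZMod p) * χ.1 k := by
  induction n with
  | zero => rw [pow_zero, kapb_one_val, Nat.cast_zero, zero_mul]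
  | succ n ih =>
    rw [pow_succ, χ.2 (k ^ n) k, ih]
    push_cast
    ring

/-- PROOF. For each `q` take `k q` with `kap_one`. Let `n q` be a natural number with `n q ≡ 1 mod pr q`,
`n q ≡ 0 mod pr q'` for `q' ≠ q` (Chinese remainder theorem; e.g. `Nat.chineseRemainderOfFinset`, or
`n q = (∏ q' ≠ q, pr q') ^ (pr q - 1)`). `k = ∏ (k q) ^ (n q)` in any order (a list product; or by induction on
a finite set of `q`s: for every `Finset` `s` there is `k` with the right values for `q ∈ s` and value `0` for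
`q ∉ s`). `χ.1` is a homomorphism, `χ.1 (k ^ n) = n * χ.1 k`. -/
theorem kap_surj {K Q : Type} [Group K] [Finite K] [Finite Q] (pr : Q → ℕ)
    [∀ q, Fact (pr q).Prime] (hinj : Function.Injective pr)
    (φ : ∀ q, Module.Dual (ZMod (pr q)) (HV K (pr q))) :
    ∃ k : K, ∀ (q : Q) (χ : HV K (pr q)), χ.1 k = φ q χ := by
  classical
  have := Fintype.ofFinite Q
  have key : ∀ s : Finset Q, ∃ k : K, (∀ q ∈ s, ∀ χ : HV K (pr q), χ.1 k = φ q χ) ∧
      ∀ q, q ∉ s → ∀ χ : HV K (pr q), χ.1 k = 0 := by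
    intro s
    induction s using Finset.induction_on with
    | empty =>
      exact ⟨1, fun q hq => absurd hq (Finset.notMem_empty q), fun q _ χ => kapb_one_val χ⟩
    | insert q0 s hq0 ih =>
      obtain ⟨k, h1, h2⟩ := ih
      obtain ⟨k0, h3⟩ := kap_one (pr q0) (φ q0)
      have hp0 : (pr q0).Prime := Fact.out
      have hN1 : ((((∏ q ∈ Finset.univ.erase q0, pr q) ^ (pr q0 - 1) : ℕ)) : ZMod (pr q0)) = 1 := by
        rw [Nat.cast_pow]
        apply ZMod.pow_card_sub_one_eq_one
        rw [Nat.cast_prod]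
        apply Finset.prod_ne_zero_iff.2
        intro q hq h
        have hq' : (pr q).Prime := Fact.out
        rw [ZMod.natCast_eq_zero_iff] at h
        exact (Finset.mem_erase.1 hq).1 (hinj ((Nat.prime_dvd_prime_iff_eq hp0 hq').1 h).symm)
      have hN0 : ∀ q, q ≠ q0 →
          ((((∏ q ∈ Finset.univ.erase q0, pr q) ^ (pr q0 - 1) : ℕ)) : ZMod (pr q)) = 0 := by
        intro q hq
        rw [ZMod.natCast_eq_zero_iff]
        refine dvd_pow (Finset.dvd_prod_of_mem pr (Finset.mem_erase.2 ⟨hq, Finset.mem_univ q⟩)) ?_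
        have := hp0.two_le
        omega
      refine ⟨k * k0 ^ ((∏ q ∈ Finset.univ.erase q0, pr q) ^ (pr q0 - 1)), ?_, ?_⟩
      · intro q hq χ
        rw [χ.2, kapb_pow]
        rcases Finset.mem_insert.1 hq with h | h
        · subst h
          rw [h2 q hq0 χ, hN1, one_mul, zero_add]
          exact h3 χ
        · have hne : q ≠ q0 := fun h' => hq0 (h' ▸ h)
          rw [h1 q h χ, hN0 q hne, zero_mul, add_zero]
      · intro q hq χ
        rw [χ.2, kapb_pow]
        have hne : q ≠ q0 := fun h' => hq (Finset.mem_insert.2 (Or.inl h'))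
        rw [h2 q (fun h' => hq (Finset.mem_insert.2 (Or.inr h'))) χ, hN0 q hne, zero_mul, add_zero]
  obtain ⟨k, h1, -⟩ := key Finset.univ
  exact ⟨k, fun q χ => h1 q (Finset.mem_univ q) χ⟩

end Cop

end MP799fdf
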