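import Pool.Agent.Lib.MP_799fdf_al.Cop.ExtA
import Pool.Agent.Lib.MP_799fdf_al.Cop.PHomA
import Pool.Agent.Lib.MP_799fdf_al.Cop.KapB

/-! # The extension property: elements of K -/

set_option autoImplicit false

open scoped commutatorElement

namespace MP799fdf

namespace Cop

namespace Eng

variable {K : Type} [Group K] [Finite K] {ι T Q : Type} {A : T → Type} [∀ τ, Group (A τ)]
  {pr : Q → ℕ} [∀ q, Fact (pr q).Prime] (D : Eng K ι T Q A pr) [Fintype ι] [DecidableEq ι]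
  [Finite Q]

/-- PROOF. `kap_surj` for the functionals `χ ↦ φ q ((χ - α χ • l') + α χ • l)` (`e' = (l', α, _)`,
`e = (l, _, _)`), which is linear in `χ`. Value at `rho i q`: `(rho i q).1 k' = u (al i k')`. -/
theorem exists_k (φ : ∀ q, Module.Dual (ZMod (pr q)) (HV K (pr q)))
    (e e' : E (K := K) (ι := ι) (pr := pr)) :
    ∃ k' : K, ∀ i q, D.u (D.t i) q (D.al i k') = ell φ e (D.ptD e' i) q := by
  obtain ⟨k', hk⟩ := kap_surj (K := K) pr D.pr_inj fun q =>
    (φ q).comp ((LinearMap.id - (e'.2.1 q).smulRight (e'.1 q)) + (e'.2.1 q).smulRight (e.1 q))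
  refine ⟨k', fun i q => ?_⟩
  exact hk q (D.rho i q)

/-- PROOF. `a * (al i k')⁻¹` has `u = 0` (`u_mul`), so it is `al i r`, `r ∈ R i` (`D.mapR`), and `P r * k'` works
(`al_P`). -/
theorem exists_al (k' : K) (a : ∀ i, A (D.t i))
    (h : ∀ i q, D.u (D.t i) q (D.al i k') = D.u (D.t i) q (a i)) : ∃ x : K, ∀ i, D.al i x = a i := by
  have h1 : ∀ i, ∃ r : D.R i, D.al i r = a i * (D.al i k')⁻¹ := by
    intro i
    obtain ⟨r, hr, hr'⟩ := (D.mapR i (a i * (D.al i k')⁻¹)).1 fun q => by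
      have h2 := D.u_mul (D.t i) q (a i * (D.al i k')⁻¹) (D.al i k')
      rw [inv_mul_cancel_right, ← h i q] at h2
      exact right_eq_add.1 h2
    exact ⟨⟨r, hr⟩, hr'⟩
  choose r hr using h1
  refine ⟨D.P r * k', fun i => ?_⟩
  rw [map_mul, al_P, hr, inv_mul_cancel_right]

end Eng

end Cop

end MP799fdf
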