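import Pool.Agent.Lib.MP_799fdf_al.Cop.Defs

/-! # Evaluation of homomorphisms to groups of prime order -/

set_option autoImplicit false

namespace MP799fdf

namespace Cop

theorem kapa_one {K : Type} [Group K] {p : ℕ} (χ : HV K p) : χ.1 1 = 0 := by
  have h := χ.2 1 1
  rw [mul_one] at h
  exact left_eq_add.1 h

theorem kapa_pow {K : Type} [Group K] {p : ℕ} (χ : HV K p) (k : K) (n : ℕ) :
    χ.1 (k ^ n) = (n : ZMod p) * χ.1 k := by
  induction n with
  | zero => rw [pow_zero, kapa_one, Nat.cast_zero, zero_mul]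
  | succ n ih =>
    have h := χ.2 (k ^ n) k
    rw [pow_succ, h, ih, Nat.cast_succ, add_mul, one_mul]

/-- evaluation at `k` -/
def kapa_ev {K : Type} [Group K] (p : ℕ) (k : K) : Module.Dual (ZMod p) (HV K p) where
  toFun χ := χ.1 k
  map_add' _ _ := rfl
  map_smul' _ _ := rfl

/-- the evaluations form a subspace -/
def kapa_S (K : Type) [Group K] (p : ℕ) [Fact p.Prime] :
    Submodule (ZMod p) (Module.Dual (ZMod p) (HV K p)) where
  carrier := Set.range (kapa_ev p)
  add_mem' := by
    rintro _ _ ⟨a, rfl⟩ ⟨b, rfl⟩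
    refine ⟨a * b, ?_⟩
    ext χ
    exact χ.2 a b
  zero_mem' := by
    refine ⟨1, ?_⟩
    ext χ
    exact kapa_one χ
  smul_mem' := by
    rintro c _ ⟨a, rfl⟩
    refine ⟨a ^ c.val, ?_⟩
    ext χ
    show χ.1 (a ^ c.val) = c * χ.1 a
    rw [kapa_pow, ZMod.natCast_zmod_val]

/-- One prime. PROOF. The set `S` of the functionals `χ ↦ χ.1 k` (`k : K`) is closed under addition, so it is
a submodule of the dual (`AddSubgroup.toZModSubmodule`, or by hand: `ZMod p`-multiples are natural multiples,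
`k ^ n`). Its coannihilator is `⊥` (`χ.1 k = 0` for all `k` gives `χ = 0`), so `S = ⊤`
(`Subspace.dualCoannihilator_dualAnnihilator_eq` for finite-dimensional spaces;
`HV K p` is finite as `K` is finite). -/
theorem kap_one {K : Type} [Group K] [Finite K] (p : ℕ) [Fact p.Prime]
    (φ : Module.Dual (ZMod p) (HV K p)) : ∃ k : K, ∀ χ : HV K p, χ.1 k = φ χ := by
  have h0 : (kapa_S K p).dualCoannihilator = ⊥ := by
    rw [eq_bot_iff]
    intro χ hχ
    rw [Submodule.mem_dualCoannihilator] at hχ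
    rw [Submodule.mem_bot]
    ext k
    exact hχ (kapa_ev p k) ⟨k, rfl⟩
  have h1 := Subspace.dualCoannihilator_dualAnnihilator_eq (W := kapa_S K p)
  rw [h0, Submodule.dualAnnihilator_bot] at h1
  have h2 : φ ∈ kapa_S K p := by
    rw [← h1]
    exact Submodule.mem_top
  obtain ⟨k, hk⟩ := h2
  refine ⟨k, fun χ => ?_⟩
  rw [← hk]
  rfl

end Cop

end MP799fdf
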