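import Pool.Agent.Lib.MP_799fdf_al.Cop.MzA

/-! # The index of DZ -/

set_option autoImplicit false

open scoped commutatorElement

namespace MP799fdf

namespace Cop

namespace Eng

variable {K : Type} [Group K] [Finite K] {ι T Q : Type} {A : T → Type} [∀ τ, Group (A τ)]
  {pr : Q → ℕ} [∀ q, Fact (pr q).Prime] (D : Eng K ι T Q A pr) [Fintype ι] [DecidableEq ι]

/-- PROOF. The homomorphism `Pi → ∏_(z ∈ Z) A z.1`, `f ↦ (z ↦ al i (f e))` for chosen `e, i` with
`ptD e i = z` (`1` if there are none; the transport along `ptD e i = z`: choose the data as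
`if h : ∃ e i, ptD e i = z`; alternatively use cosets: the map `f ↦ (z ↦ g z)` for a chosen `g`, defined to be
`1` outside the points `ptD e i`; two `f`s with the same image are in the same left coset of `DZ Z`, so the index
is at most the number of values, `Subgroup.index`/`Nat.card_le_card_of_injective`). Number of values: at most
`a ^ Z.card`. -/
theorem DZ_index [∀ τ, Finite (A τ)] {a : ℕ} (ha : ∀ τ, Nat.card (A τ) ≤ a) (Z : Finset (X (K := K) (ι := ι) (pr := pr) (T := T))) :
    ((D.DZ Z).subgroupOf D.Pi).index ≤ a ^ Z.card := by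
  classical
  have hg : ∀ q : D.Pi ⧸ (D.DZ Z).subgroupOf D.Pi,
      ∃ g : ∀ x : X (K := K) (ι := ι) (pr := pr) (T := T), A x.1,
        ∀ e i, D.al i ((q.out : D.Pi).1 e) = g (D.ptD e i) := fun q => (q.out).2
  choose g hg using hg
  let G : (D.Pi ⧸ (D.DZ Z).subgroupOf D.Pi) → ∀ z : Z, A z.1.1 := fun q z => g q z.1
  have hinj : Function.Injective G := by
    intro q q' hqq
    rw [← Quotient.out_eq q, ← Quotient.out_eq q']
    refine QuotientGroup.eq.2 ?_
    rw [Subgroup.mem_subgroupOf]
    refine ⟨(q.out⁻¹ * q'.out).2, fun e i hz => ?_⟩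
    have h1 : g q (D.ptD e i) = g q' (D.ptD e i) := congrFun hqq ⟨D.ptD e i, hz⟩
    have h2 : ((q.out⁻¹ * q'.out : D.Pi) : E (K := K) (ι := ι) (pr := pr) → K) e =
        ((q.out : D.Pi).1 e)⁻¹ * (q'.out : D.Pi).1 e := rfl
    have h3 : D.al i ((q.out : D.Pi).1 e) = D.al i ((q'.out : D.Pi).1 e) := by
      rw [hg q, hg q']
      exact h1
    rw [h2, map_mul, map_inv, h3, inv_mul_cancel]
  have hcard : Nat.card (∀ z : Z, A z.1.1) ≤ a ^ Z.card := by
    rw [Nat.card_pi]
    calc ∏ z : Z, Nat.card (A z.1.1) ≤ ∏ _z : Z, a :=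
          Finset.prod_le_prod' fun z _ => ha _
      _ = a ^ Z.card := by
          rw [Finset.prod_const, Finset.card_univ, Fintype.card_coe]
  exact (Nat.card_le_card_of_injective G hinj).trans hcard

end Eng

end Cop

end MP799fdf
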