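import Pool.Agent.Lib.MP_799fdf_al.Cop.PHomA
import Pool.Agent.Lib.MP_799fdf_al.Cop.PHomB

/-! # Functions in all `M Z` -/

set_option autoImplicit false

open scoped commutatorElement

namespace MP799fdf

namespace Cop

namespace Eng

variable {K : Type} [Group K] [Finite K] {ι T Q : Type} {A : T → Type} [∀ τ, Group (A τ)]
  {pr : Q → ℕ} [∀ q, Fact (pr q).Prime] (D : Eng K ι T Q A pr) [Fintype ι] [DecidableEq ι]
  [Finite T] [Finite Q]

/-- PROOF. `Z = {ptD e i}`: `r i (..) = 1`, and `al i (f e) = al i (r i (..)) = 1` (`al_P`). -/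
theorem al_one {m : ℕ} (hm : 1 ≤ m) (f : E (K := K) (ι := ι) (pr := pr) → K)
    (hf : ∀ Z : Finset (X (K := K) (ι := ι) (pr := pr) (T := T)), Z.card ≤ m → f ∈ D.M Z) (e : E (K := K) (ι := ι) (pr := pr)) (i : ι) :
    D.al i (f e) = 1 := by
  classical
  obtain ⟨r, ⟨g, hg⟩, h1, h2⟩ := hf {D.ptD e i} (by simpa using hm)
  rw [h2, D.al_P, h1 i (D.trD e i, lab e.2.2 i) (Finset.mem_singleton.2 rfl)]
  simp

/-- The representation by functions with values in the centres. PROOF. `r` from `f ∈ M Z`.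
`al i (r i (trD e i, _)) = al i (f e) = 1` (`al_P`, `al_one`), so `r i (trD e i, _) ∈ CC`. Define
`h i w = ⟨r i w, _⟩` if `al i (r i w) = 1` and `1` otherwise. `f e = P (..) = zi (∏ ..)` (`P_prod`).
If `rho i q ≠ 0` then the order of `h i w` is coprime to `pr q` (`D.cop`) and divides `|K|`, so it divides
`ordCompl[pr q] |K|`. -/
theorem exists_h {m : ℕ} (hm : 1 ≤ m) (f : E (K := K) (ι := ι) (pr := pr) → K)
    (hf : ∀ Z : Finset (X (K := K) (ι := ι) (pr := pr) (T := T)), Z.card ≤ m → f ∈ D.M Z)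
    (Z : Finset (X (K := K) (ι := ι) (pr := pr) (T := T))) (hZ : Z.card ≤ m) :
    ∃ h : ι → W (K := K) (pr := pr) × Option ι → D.ZZ,
      (∀ i w, (D.t i, w) ∈ Z → h i w = 1) ∧
      (∀ i q, D.rho i q ≠ 0 → ∀ w, (h i w) ^ (ordCompl[pr q] (Nat.card K)) = 1) ∧
      ∀ e, f e = D.zi (∏ i, h i (D.trD e i, lab e.2.2 i)) := by
  classical
  obtain ⟨r, ⟨g, hg⟩, h1, h2⟩ := hf Z hZ
  let h : ι → W (K := K) (pr := pr) × Option ι → D.ZZ := fun i w =>
    if hh : D.al i (r i w) = 1 then
      (⟨(r i w : K), Subgroup.subset_closure ⟨i, (r i w).2, hh⟩⟩ : Subgroup.closure D.CC)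
    else 1
  have hpos : ∀ i w, D.al i (r i w) = 1 → D.zi (h i w) = (r i w : K) := by
    intro i w hh
    have e1 : h i w =
        (⟨(r i w : K), Subgroup.subset_closure ⟨i, (r i w).2, hh⟩⟩ : Subgroup.closure D.CC) :=
      dif_pos hh
    rw [e1]
    rfl
  have hneg : ∀ i w, ¬ D.al i (r i w) = 1 → h i w = 1 := fun i w hh => dif_neg hh
  refine ⟨h, fun i w hw => ?_, fun i q hq w => ?_, fun e => ?_⟩
  · apply D.zi_inj
    have h3 : r i w = 1 := h1 i w hw
    rw [hpos i w (by rw [h3]; simp), h3, map_one]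
    rfl
  · by_cases hh : D.al i (r i w) = 1
    · apply D.zi_inj
      rw [map_pow, hpos i w hh, map_one]
      have hk : ∃ k, D.u (D.t i) q (D.al i k) ≠ 0 := by
        by_contra hcon
        push Not at hcon
        apply hq
        apply Subtype.ext
        funext k
        exact hcon k
      have h4 := D.cop i q hk (r i w) (r i w).2 hh
      have h5 : orderOf (r i w : K) ∣ Nat.card K := orderOf_dvd_natCard _
      rw [← Nat.ordProj_mul_ordCompl_eq_self (Nat.card K) (pr q)] at h5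
      exact orderOf_dvd_iff_pow_eq_one.1
        ((Nat.Coprime.pow_right _ h4).dvd_of_dvd_mul_left h5)
    · rw [hneg i w hh, one_pow]
  · rw [h2 e]
    apply D.P_prod
    intro i
    refine (hpos i _ ?_).symm
    rw [← D.al_P (fun j => r j (D.trD e j, lab e.2.2 j)) i, ← h2 e]
    exact D.al_one hm f hf e i

end Eng

end Cop

end MP799fdf
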